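import Pool.Agent.Q6.HP.Cor

/-!
# Partitions into disjoint unions of few cliques
-/

set_option autoImplicit false
set_option maxHeartbeats 400000

namespace Pool.Agent.Q6.HP

open Finset Filter

/-- The disjoint unions of at most `k` cliques. -/
def FewCliques (k : ℕ) (m : ℕ) : Set (SimpleGraph (Fin m)) :=
  {G | ∃ g : Fin m → ℕ, (∀ v, g v < k) ∧ ∀ u v, u ≠ v → (G.Adj u v ↔ g u = g v)}

/-- The vertices can be partitioned into `r` parts, the part `i` a disjoint union of at most `k i`
cliques without edges between them. -/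
def CliqueUnions {n r : ℕ} (k : Fin r → ℕ) (G : SimpleGraph (Fin n)) : Prop :=
  ∃ (f : Fin n → Fin r) (g : Fin n → ℕ), (∀ v, g v < k (f v)) ∧
    ∀ u v, u ≠ v → f u = f v → (G.Adj u v ↔ g u = g v)

theorem hereditary_few (k : ℕ) : Hereditary (FewCliques k) := by
  rintro m n φ G ⟨g, hg, hG⟩
  exact ⟨fun v => g (φ v), fun v => hg _, fun u v huv =>
    hG _ _ (fun h => huv (φ.injective h))⟩

theorem nonempty_few (k : ℕ) (hk : 1 ≤ k) (m : ℕ) : (FewCliques k m).Nonempty := by
  refine ⟨⊤, fun _ => 0, fun _ => hk, fun u v huv => ?_⟩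
  simpa using huv

theorem few_sub (k m : ℕ) : FewCliques k m ⊆ Clusters m := by
  rintro G ⟨g, -, hG⟩ a b c hac hab hbc
  rw [hG a c hac, (hG a b hab.ne).1 hab, (hG b c hbc.ne).1 hbc]

theorem fewExt_few (k : ℕ) : FewExt (fun m => m + 1) (FewCliques k) := by
  intro m H
  refine le_trans (Set.ncard_le_ncard ?_ (Set.toFinite _)) (fewExt_clusters m H)
  rintro G ⟨hG, hH⟩
  exact ⟨few_sub k _ hG, hH⟩

theorem parts_few {n r : ℕ} (k : Fin r → ℕ) (G : SimpleGraph (Fin n)) :
    (∃ f : Fin n → Fin r, Parts (fun i => FewCliques (k i)) f G) ↔ CliqueUnions k G := by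
  classical
  refine exists_congr fun f => ?_
  constructor
  · intro hf
    have h1 : ∀ i, ∃ g : Fin (univ.filter (fun v => f v = i)).card → ℕ, (∀ v, g v < k i) ∧
        ∀ u v, u ≠ v → ((G.comap (enum (univ.filter (fun v => f v = i)))).Adj u v ↔ g u = g v) :=
      fun i => hf i _ (enum _) (fun a => by
        have := enum_mem (univ.filter (fun v => f v = i)) a
        simpa using this)
    choose g hg hG using h1
    have h2 : ∀ v : Fin n, ∃ a, enum (univ.filter (fun u => f u = f v)) a = v := fun v =>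
      exists_enum _ v (by simp)
    choose x hx using h2
    refine ⟨fun v => g (f v) (x v), fun v => hg _ _, fun u v huv he => ?_⟩
    have key : ∀ i, f u = i → f v = i → (G.Adj u v ↔ g (f u) (x u) = g (f v) (x v)) := by
      intro i hui hvi
      have h3 : ∀ w, (hw : f w = i) → ∃ a, enum (univ.filter (fun u => f u = i)) a = w ∧
          g (f w) (x w) = g i a := by
        rintro w rfl
        exact ⟨x w, hx w, rfl⟩
      obtain ⟨a, ha, ha'⟩ := h3 u hui
      obtain ⟨b, hb, hb'⟩ := h3 v hvi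
      rw [ha', hb', ← hG i a b (fun h => huv (by rw [← ha, ← hb, h])), SimpleGraph.comap_adj,
        ha, hb]
    exact key _ rfl he.symm
  · rintro ⟨g, hg, hG⟩ i m φ hφ
    refine ⟨fun a => g (φ a), fun a => ?_, fun u v huv => ?_⟩
    · have := hg (φ a)
      rwa [hφ a] at this
    · exact hG _ _ (fun h => huv (φ.injective h)) ((hφ u).trans (hφ v).symm)

theorem cliqueUnions (P : ∀ n : ℕ, SimpleGraph (Fin n) → Prop) (hP : Typical P) (r : ℕ)
    (hr : 2 ≤ r) (δ : ℝ) (hδ : 0 < δ) :
    ∃ N : ℕ, ∀ n : ℕ, N ≤ n → ∀ k : Fin r → ℕ, (∀ i, 1 ≤ k i) →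
      ({G : SimpleGraph (Fin n) | CliqueUnions k G ∧ ¬ P n G}.ncard : ℝ) ≤
        δ * {G : SimpleGraph (Fin n) | CliqueUnions k G}.ncard := by
  obtain ⟨N, hN⟩ := almost_all P hP _ subexp_succ r hr δ hδ
  refine ⟨N, fun n hn k hk => ?_⟩
  have h1 := hN n hn (fun i => FewCliques (k i)) (fun i => hereditary_few _)
    (fun i m => nonempty_few _ (hk i) m) (fun i => fewExt_few _)
  simp only [parts_few] at h1
  exact h1

end Pool.Agent.Q6.HP
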