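import Pool.Agent.Q6.HP.Kinds

/-!
# Defective partitions and generalised split graphs
-/

set_option autoImplicit false
set_option maxHeartbeats 400000

namespace Pool.Agent.Q6.HP

open Finset Filter

/-- The vertices can be partitioned into a clique and a set which induces a disjoint union of
cliques. -/
def Unipolar {n : ℕ} (G : SimpleGraph (Fin n)) : Prop :=
  ∃ A : Set (Fin n), (∀ a ∈ A, ∀ b ∈ A, a ≠ b → G.Adj a b) ∧
    ∀ a b c, a ∉ A → b ∉ A → c ∉ A → a ≠ c → G.Adj a b → G.Adj b c → G.Adj a c

/-- The vertices can be partitioned into `r` parts such that every vertex of a part of `S` has at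
most `D` nonneighbours in its part, every other vertex has at most `D` neighbours in its part. -/
def Defective (D : ℕ) {n r : ℕ} (S : Set (Fin r)) (G : SimpleGraph (Fin n)) : Prop :=
  ∃ f : Fin n → Fin r, ∀ v, {u | u ≠ v ∧ f u = f v ∧ ¬ (G.Adj v u ↔ f v ∈ S)}.ncard ≤ D

/-- the classes for unipolar graphs -/
def uniC : Fin 2 → (m : ℕ) → Set (SimpleGraph (Fin m)) :=
  fun i => if i = 0 then Co (SmallDeg 0) else Clusters

/-- the classes for complements of unipolar graphs -/
def uniC' : Fin 2 → (m : ℕ) → Set (SimpleGraph (Fin m)) :=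
  fun i => if i = 0 then SmallDeg 0 else Co Clusters

theorem mem_smallDeg_zero {m : ℕ} (G : SimpleGraph (Fin m)) :
    G ∈ SmallDeg 0 m ↔ ∀ a b, ¬ G.Adj a b := by
  constructor
  · intro h a b hab
    have h1 := h a
    rw [Nat.le_zero, Set.ncard_eq_zero (Set.toFinite _)] at h1
    have h2 : b ∈ G.neighborSet a := hab
    rw [h1] at h2
    exact h2
  · intro h v
    have : G.neighborSet v = ∅ := by
      ext w
      simp [h v w]
    rw [this]
    simp

theorem parts_uniC {n : ℕ} (G : SimpleGraph (Fin n)) :
    (∃ f : Fin n → Fin 2, Parts uniC f G) ↔ Unipolar G := by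
  classical
  constructor
  · rintro ⟨f, hf⟩
    refine ⟨{v | f v = 0}, ?_, ?_⟩
    · intro a ha b hb hab
      obtain ⟨φ, h0, h1⟩ := exists_emb2 a b hab
      have h2 := hf 0 2 φ (by
        intro i
        fin_cases i
        · simpa [h0] using ha
        · simpa [h1] using hb)
      have h3 : (G.comap φ)ᶜ ∈ SmallDeg 0 2 := by
        simpa [uniC, Co] using h2
      have h4 := (mem_smallDeg_zero _).1 h3 0 1
      rw [SimpleGraph.compl_adj] at h4
      by_contra hcon
      apply h4
      refine ⟨by decide, ?_⟩
      rw [SimpleGraph.comap_adj, h0, h1]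
      exact hcon
    · intro a b c ha hb hc hac hab hbc
      obtain ⟨φ, h0, h1, h2⟩ := exists_emb3 a b c hab.ne hbc.ne hac
      have hv : ∀ x, x ∉ {v | f v = 0} → f x = 1 := by
        intro x hx
        have : f x ≠ 0 := hx
        omega
      have h3 := hf 1 3 φ (by
        intro i
        fin_cases i
        · simpa [h0] using hv a ha
        · simpa [h1] using hv b hb
        · simpa [h2] using hv c hc)
      have h4 : G.comap φ ∈ Clusters 3 := by
        simpa [uniC] using h3
      have h5 := h4 0 1 2 (by decide)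
      rw [SimpleGraph.comap_adj, SimpleGraph.comap_adj, SimpleGraph.comap_adj, h0, h1, h2] at h5
      exact h5 hab hbc
  · rintro ⟨A, hA, hB⟩
    refine ⟨fun v => if v ∈ A then 0 else 1, ?_⟩
    intro i m φ hφ
    by_cases hi : i = 0
    · subst hi
      have h1 : (G.comap φ)ᶜ ∈ SmallDeg 0 m := by
        rw [mem_smallDeg_zero]
        intro a b hab
        rw [SimpleGraph.compl_adj, SimpleGraph.comap_adj] at hab
        have ha := hφ a
        have hb := hφ b
        have ha' : φ a ∈ A := by
          by_contra hcon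
          simp [hcon] at ha
        have hb' : φ b ∈ A := by
          by_contra hcon
          simp [hcon] at hb
        exact hab.2 (hA _ ha' _ hb' (fun h => hab.1 (φ.injective h)))
      simpa [uniC, Co] using h1
    · have h1 : G.comap φ ∈ Clusters m := by
        intro a b c hac hab hbc
        have h2 : ∀ x, φ x ∉ A := by
          intro x hx
          have := hφ x
          simp only [hx, if_true] at this
          exact hi this.symm
        exact hB _ _ _ (h2 a) (h2 b) (h2 c) (fun h => hac (φ.injective h)) hab hbc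
      simpa [uniC, hi] using h1

theorem parts_uniC' {n : ℕ} (G : SimpleGraph (Fin n)) :
    (∃ f : Fin n → Fin 2, Parts uniC' f G) ↔ Unipolar Gᶜ := by
  rw [← parts_uniC]
  have key : ∀ f : Fin n → Fin 2, Parts uniC' f G ↔ Parts uniC f Gᶜ := by
    intro f
    unfold Parts
    refine forall_congr' fun i => forall_congr' fun m => forall_congr' fun φ =>
      forall_congr' fun _ => ?_
    rw [← comap_compl]
    by_cases hi : i = 0
    · simp [uniC, uniC', hi, Co]
    · simp [uniC, uniC', hi, Co]
  exact exists_congr key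

/-- the classes for defective partitions -/
noncomputable def defC (D : ℕ) {r : ℕ} (S : Set (Fin r)) :
    Fin r → (m : ℕ) → Set (SimpleGraph (Fin m)) := by
  classical exact fun i => if i ∈ S then Co (SmallDeg D) else SmallDeg D

theorem parts_defC (D : ℕ) {n r : ℕ} (S : Set (Fin r)) (G : SimpleGraph (Fin n)) :
    (∃ f : Fin n → Fin r, Parts (defC D S) f G) ↔ Defective D S G := by
  classical
  refine exists_congr fun f => ?_
  constructor
  · intro hf v
    set U : Finset (Fin n) := univ.filter (fun u => f u = f v) with hU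
    obtain ⟨x, hx⟩ := exists_enum U v (by simp [hU])
    have h1 := hf (f v) U.card (enum U) (fun a => by
      have := enum_mem U a
      simpa [hU] using this)
    by_cases hS : f v ∈ S
    · have h2 : (G.comap (enum U))ᶜ ∈ SmallDeg D U.card := by
        simpa [defC, hS, Co] using h1
      have h3 := h2 x
      refine le_trans ?_ h3
      rw [← Set.ncard_image_of_injective _ (enum U).injective]
      apply Set.ncard_le_ncard _ (Set.toFinite _)
      rintro u ⟨hu1, hu2, hu3⟩
      obtain ⟨y, hy⟩ := exists_enum U u (by simp [hU, hu2])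
      refine ⟨y, ?_, hy⟩
      rw [SimpleGraph.mem_neighborSet, SimpleGraph.compl_adj, SimpleGraph.comap_adj, hx, hy]
      refine ⟨?_, ?_⟩
      · rintro rfl
        exact hu1 (hy.symm.trans hx)
      · intro h
        exact hu3 ⟨fun _ => hS, fun _ => h⟩
    · have h2 : G.comap (enum U) ∈ SmallDeg D U.card := by
        simpa [defC, hS] using h1
      have h3 := h2 x
      refine le_trans ?_ h3
      rw [← Set.ncard_image_of_injective _ (enum U).injective]
      apply Set.ncard_le_ncard _ (Set.toFinite _)
      rintro u ⟨hu1, hu2, hu3⟩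
      obtain ⟨y, hy⟩ := exists_enum U u (by simp [hU, hu2])
      refine ⟨y, ?_, hy⟩
      rw [SimpleGraph.mem_neighborSet, SimpleGraph.comap_adj, hx, hy]
      by_contra h
      exact hu3 ⟨fun h' => absurd h' h, fun h' => absurd h' hS⟩
  · intro hf i m φ hφ
    by_cases hS : i ∈ S
    · have h2 : (G.comap φ)ᶜ ∈ SmallDeg D m := by
        intro x
        refine le_trans ?_ (hf (φ x))
        apply Set.ncard_le_ncard_of_injOn φ
        · intro y hy
          rw [SimpleGraph.mem_neighborSet, SimpleGraph.compl_adj, SimpleGraph.comap_adj] at hy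
          refine ⟨fun h => hy.1 (φ.injective h).symm, (hφ y).trans (hφ x).symm, ?_⟩
          rw [hφ x]
          exact fun h => hy.2 (h.2 hS)
        · exact φ.injective.injOn
      simpa [defC, hS, Co] using h2
    · have h2 : G.comap φ ∈ SmallDeg D m := by
        intro x
        refine le_trans ?_ (hf (φ x))
        apply Set.ncard_le_ncard_of_injOn φ
        · intro y hy
          rw [SimpleGraph.mem_neighborSet, SimpleGraph.comap_adj] at hy
          refine ⟨fun h => hy.ne (congrArg φ (φ.injective h)).symm, (hφ y).trans (hφ x).symm, ?_⟩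
          rw [hφ x]
          exact fun h => hS (h.1 hy)
        · exact φ.injective.injOn
      simpa [defC, hS] using h2

/-- The property `P` holds for almost all graphs between two graphs. -/
def Typical (P : ∀ n : ℕ, SimpleGraph (Fin n) → Prop) : Prop :=
  ∀ c ε : ℝ, 0 < c → 0 < ε → ∃ N : ℕ, ∀ n : ℕ, N ≤ n → ∀ F B : SimpleGraph (Fin n),
    F ≤ B →
    (∀ v, ((F.neighborSet v).ncard : ℝ) + c * n ≤ (B.neighborSet v).ncard ∨
      ∃ u, ((F.neighborSet v).ncard : ℝ) + (B.neighborSet v).ncard + c * n ≤
        (F.neighborSet u).ncard + (B.neighborSet u).ncard) →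
    ({G : SimpleGraph (Fin n) | F ≤ G ∧ G ≤ B ∧ ¬ P n G}.ncard : ℝ) ≤
      ε * {G : SimpleGraph (Fin n) | F ≤ G ∧ G ≤ B}.ncard

theorem defective (P : ∀ n : ℕ, SimpleGraph (Fin n) → Prop) (hP : Typical P) (D r : ℕ)
    (hr : 2 ≤ r) (δ : ℝ) (hδ : 0 < δ) :
    ∃ N : ℕ, ∀ n : ℕ, N ≤ n → ∀ S : Set (Fin r),
      ({G : SimpleGraph (Fin n) | Defective D S G ∧ ¬ P n G}.ncard : ℝ) ≤
        δ * {G : SimpleGraph (Fin n) | Defective D S G}.ncard := by
  classical
  obtain ⟨N, hN⟩ := almost_all P hP _ (subexp_poly D) r hr δ hδ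
  refine ⟨N, fun n hn S => ?_⟩
  have h1 := hN n hn (defC D S) (by
      intro i
      unfold defC
      split_ifs with h
      · exact hereditary_co (hereditary_smallDeg D)
      · exact hereditary_smallDeg D) (by
      intro i m
      unfold defC
      split_ifs with h
      · exact nonempty_co (nonempty_smallDeg D) m
      · exact nonempty_smallDeg D m) (by
      intro i
      unfold defC
      split_ifs with h
      · exact fewExt_co (fewExt_smallDeg D)
      · exact fewExt_smallDeg D)
  simp only [parts_defC] at h1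
  exact h1

theorem FewExt.mono {e e' : ℕ → ℕ} (h : ∀ m, e m ≤ e' m) {Φ : (m : ℕ) → Set (SimpleGraph (Fin m))}
    (hΦ : FewExt e Φ) : FewExt e' Φ := fun m H => (hΦ m H).trans (h m)

theorem gen_split (P : ∀ n : ℕ, SimpleGraph (Fin n) → Prop) (hP : Typical P) (δ : ℝ)
    (hδ : 0 < δ) :
    ∃ N : ℕ, ∀ n : ℕ, N ≤ n →
      ({G : SimpleGraph (Fin n) | (Unipolar G ∨ Unipolar Gᶜ) ∧ ¬ P n G}.ncard : ℝ) ≤
        δ * {G : SimpleGraph (Fin n) | Unipolar G ∨ Unipolar Gᶜ}.ncard := by
  classical
  have h0 : FewExt (fun m => m + 1) (SmallDeg 0) :=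
    FewExt.mono (fun m => by simp) (fewExt_smallDeg 0)
  obtain ⟨N, hN⟩ := almost_all P hP _ subexp_succ 2 le_rfl (δ / 2) (by linarith)
  refine ⟨N, fun n hn => ?_⟩
  have h1 := hN n hn uniC (by
      intro i
      unfold uniC
      split_ifs with h
      · exact hereditary_co (hereditary_smallDeg 0)
      · exact hereditary_clusters) (by
      intro i m
      unfold uniC
      split_ifs with h
      · exact nonempty_co (nonempty_smallDeg 0) m
      · exact nonempty_clusters m) (by
      intro i
      unfold uniC
      split_ifs with h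
      · exact fewExt_co h0
      · exact fewExt_clusters)
  have h2 := hN n hn uniC' (by
      intro i
      unfold uniC'
      split_ifs with h
      · exact hereditary_smallDeg 0
      · exact hereditary_co hereditary_clusters) (by
      intro i m
      unfold uniC'
      split_ifs with h
      · exact nonempty_smallDeg 0 m
      · exact nonempty_co nonempty_clusters m) (by
      intro i
      unfold uniC'
      split_ifs with h
      · exact h0
      · exact fewExt_co fewExt_clusters)
  simp only [parts_uniC] at h1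
  simp only [parts_uniC'] at h2
  have h3 : ({G : SimpleGraph (Fin n) | (Unipolar G ∨ Unipolar Gᶜ) ∧ ¬ P n G}.ncard : ℝ) ≤
      {G : SimpleGraph (Fin n) | Unipolar G ∧ ¬ P n G}.ncard +
        {G : SimpleGraph (Fin n) | Unipolar Gᶜ ∧ ¬ P n G}.ncard := by
    have h4 : {G : SimpleGraph (Fin n) | (Unipolar G ∨ Unipolar Gᶜ) ∧ ¬ P n G} =
        {G : SimpleGraph (Fin n) | Unipolar G ∧ ¬ P n G} ∪
          {G : SimpleGraph (Fin n) | Unipolar Gᶜ ∧ ¬ P n G} := by
      ext G
      simp only [Set.mem_setOf_eq, Set.mem_union]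
      tauto
    rw [h4]
    exact_mod_cast Set.ncard_union_le _ _
  have h5 : ({G : SimpleGraph (Fin n) | Unipolar G}.ncard : ℝ) ≤
      {G : SimpleGraph (Fin n) | Unipolar G ∨ Unipolar Gᶜ}.ncard := by
    exact_mod_cast Set.ncard_le_ncard (fun G h => Or.inl h) (Set.toFinite _)
  have h6 : ({G : SimpleGraph (Fin n) | Unipolar Gᶜ}.ncard : ℝ) ≤
      {G : SimpleGraph (Fin n) | Unipolar G ∨ Unipolar Gᶜ}.ncard := by
    exact_mod_cast Set.ncard_le_ncard (fun G h => Or.inr h) (Set.toFinite _)
  have h7 : 0 < δ / 2 := by linarith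
  nlinarith

end Pool.Agent.Q6.HP
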