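import Pool.Agent.Q6.HP.Basic

/-!
# Two partitions: few graphs have both
-/

set_option autoImplicit false
set_option maxHeartbeats 400000

namespace Pool.Agent.Q6.HP

open Finset Pool.Agent.Q129.AAC

variable {n r : ℕ}

theorem two_pow_sdiff (C R : Finset (Sym2 (Fin n))) (hR : R ⊆ C) (k : ℕ) (hk : k ≤ R.card) :
    (2 : ℝ) ^ (C \ R).card ≤ 2 ^ C.card * (1 / 2) ^ k := by
  have h1 : (C \ R).card + R.card = C.card := Finset.card_sdiff_add_card_eq_card hR
  have h2 : (C \ R).card + k ≤ C.card := by omega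
  have h3 : (2 : ℝ) ^ ((C \ R).card + k) ≤ 2 ^ C.card := pow_le_pow_right₀ (by norm_num) h2
  calc (2 : ℝ) ^ (C \ R).card = 2 ^ ((C \ R).card + k) * (1 / 2) ^ k := by
        rw [pow_add, mul_assoc, ← mul_pow]
        norm_num
    _ ≤ 2 ^ C.card * (1 / 2) ^ k := mul_le_mul_of_nonneg_right h3 (by positivity)

/-- enumeration of a finite set of vertices -/
noncomputable def enum (U : Finset (Fin n)) : Fin U.card ↪ Fin n :=
  (U.orderEmbOfFin rfl).toEmbedding

theorem enum_mem (U : Finset (Fin n)) (a : Fin U.card) : enum U a ∈ U :=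
  Finset.orderEmbOfFin_mem U rfl a

theorem exists_enum (U : Finset (Fin n)) (v : Fin n) (hv : v ∈ U) : ∃ a, enum U a = v := by
  have h := Finset.range_orderEmbOfFin U rfl
  have h2 : v ∈ Set.range (U.orderEmbOfFin rfl) := by
    rw [h]
    exact hv
  exact h2

open Classical in
/-- Two large parts of `f` are in one part of `g`. -/
theorem caseA (Φ : Fin r → (m : ℕ) → Set (SimpleGraph (Fin m))) (hΦ : ∀ i, Hereditary (Φ i))
    (e : ℕ → ℕ) (he : ∀ i, FewExt e (Φ i)) (E : ℝ) (hE : 1 ≤ E) (heE : ∀ k ≤ n, (e k : ℝ) ≤ E)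
    (f g : Fin n → Fin r) (G0 : SimpleGraph (Fin n)) (i i' j : Fin r) (hii : i ≠ i') (m : ℕ)
    (hA : m ≤ (univ.filter (fun v => f v = i ∧ g v = j)).card)
    (hA' : m ≤ (univ.filter (fun v => f v = i' ∧ g v = j)).card) :
    ((univ.filter (fun G => Agree f G0 G ∧ Parts Φ g G)).card : ℝ) ≤
      2 ^ (crs f).card * (E ^ n * (1 / 2) ^ (m * m)) := by
  set U : Finset (Fin n) := univ.filter (fun v => g v = j) with hU
  set A := univ.filter (fun v => f v = i ∧ g v = j) with hAd
  set A' := univ.filter (fun v => f v = i' ∧ g v = j) with hAd'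
  set R : Finset (Sym2 (Fin n)) := (A ×ˢ A').image (fun p => s(p.1, p.2)) with hR
  have hinj : Set.InjOn (fun p : Fin n × Fin n => s(p.1, p.2)) (A ×ˢ A' : Finset _) := by
    rintro ⟨u, v⟩ hp ⟨u', v'⟩ hp' he'
    simp only [coe_product, Set.mem_prod, mem_coe, hAd, hAd', mem_filter, mem_univ,
      true_and] at hp hp'
    simp only [Sym2.eq_iff] at he'
    rcases he' with ⟨rfl, rfl⟩ | ⟨rfl, rfl⟩
    · rfl
    · exfalso
      apply hii
      rw [← hp.1.1, hp'.2.1]
  have hRc : m * m ≤ R.card := by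
    rw [hR, Finset.card_image_of_injOn hinj, card_product]
    exact Nat.mul_le_mul hA hA'
  have hRs : R ⊆ crs f := by
    intro x hx
    rw [hR, Finset.mem_image] at hx
    obtain ⟨⟨u, v⟩, hp, rfl⟩ := hx
    simp only [mem_product, hAd, hAd', mem_filter, mem_univ, true_and] at hp
    rw [mem_crs, cross_mk]
    rw [hp.1.1, hp.2.1]
    exact hii
  have h1 := card_le_trace f G0 (univ.filter (fun G => Agree f G0 G ∧ Parts Φ g G))
    (fun G hG => by
      simp only [mem_filter, mem_univ, true_and] at hG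
      exact hG.1)
    (univ.filter (fun H : SimpleGraph (Fin U.card) => H ∈ Φ j U.card))
    (fun G => G.comap (enum U))
    (fun G hG => by
      simp only [mem_filter, mem_univ, true_and] at hG ⊢
      apply hG.2
      intro a
      have := enum_mem U a
      simpa [hU] using this)
    R
    (fun G hG G' hG' hτ x hx _ => by
      rw [hR, Finset.mem_image] at hx
      obtain ⟨⟨u, v⟩, hp, rfl⟩ := hx
      simp only [mem_product, hAd, hAd', mem_filter, mem_univ, true_and] at hp
      obtain ⟨a, ha⟩ := exists_enum U u (by simp [hU, hp.1.2])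
      obtain ⟨b, hb⟩ := exists_enum U v (by simp [hU, hp.2.2])
      have h2 : (G.comap (enum U)).Adj a b ↔ (G'.comap (enum U)).Adj a b := by
        rw [show G.comap (enum U) = G'.comap (enum U) from hτ]
      simp only [SimpleGraph.comap_adj, ha, hb] at h2
      simpa using h2)
  have h2 : (((univ.filter (fun G => Agree f G0 G ∧ Parts Φ g G)).card : ℕ) : ℝ) ≤
      2 ^ (crs f \ R).card *
        ((univ.filter (fun H : SimpleGraph (Fin U.card) => H ∈ Φ j U.card)).card : ℝ) := by
    exact_mod_cast h1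
  have hUn : U.card ≤ n := by
    have := Finset.card_le_univ U
    simpa using this
  have h3 := card_class (Φ j) (hΦ j) e (he j) E hE n heE U.card hUn
  have h4 : E ^ U.card ≤ E ^ n := pow_le_pow_right₀ hE hUn
  refine h2.trans ?_
  calc (2 : ℝ) ^ (crs f \ R).card *
        ((univ.filter (fun H : SimpleGraph (Fin U.card) => H ∈ Φ j U.card)).card : ℝ)
      ≤ (2 ^ (crs f).card * (1 / 2) ^ (m * m)) * E ^ n :=
        mul_le_mul (two_pow_sdiff _ _ hRs _ hRc) (h3.trans h4) (Nat.cast_nonneg _) (by positivity)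
    _ = 2 ^ (crs f).card * (E ^ n * (1 / 2) ^ (m * m)) := by ring

/-- enumeration of a finite set of vertices and one further vertex -/
noncomputable def enumS (U : Finset (Fin n)) (v : Fin n) (hv : v ∉ U) :
    Fin (U.card + 1) ↪ Fin n where
  toFun := Fin.snoc (α := fun _ => Fin n) (enum U) v
  inj' := by
    refine Fin.snoc_injective_of_injective (enum U).injective ?_
    rintro ⟨a, ha⟩
    exact hv (ha ▸ enum_mem U a)

theorem enumS_last (U : Finset (Fin n)) (v : Fin n) (hv : v ∉ U) :
    enumS U v hv (Fin.last _) = v := by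
  show Fin.snoc (α := fun _ => Fin n) (enum U) v (Fin.last _) = v
  rw [Fin.snoc_last]

theorem enumS_castSucc (U : Finset (Fin n)) (v : Fin n) (hv : v ∉ U) (a : Fin U.card) :
    enumS U v hv a.castSucc = enum U a := by
  show Fin.snoc (α := fun _ => Fin n) (enum U) v a.castSucc = enum U a
  rw [Fin.snoc_castSucc]

open Classical in
/-- The parts of `f` correspond to the parts of `g`. -/
theorem caseB (Φ : Fin r → (m : ℕ) → Set (SimpleGraph (Fin m)))
    (e : ℕ → ℕ) (he : ∀ i, FewExt e (Φ i)) (x : ℝ) (m : ℕ)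
    (hex : ∀ k, m ≤ k → k ≤ n → (e k : ℝ) ≤ x * 2 ^ k)
    (f g : Fin n → Fin r) (G0 : SimpleGraph (Fin n)) (σ : Fin r → Fin r)
    (hσ : Function.Surjective σ)
    (hm : ∀ i, m ≤ (univ.filter (fun v => f v = i ∧ g v = σ i)).card) :
    ((univ.filter (fun G => Agree f G0 G ∧ Parts Φ g G)).card : ℝ) ≤
      2 ^ (crs f).card * x ^ (univ.filter (fun v => g v ≠ σ (f v))).card := by
  choose ρ hρ using hσ
  set T := univ.filter (fun v => g v ≠ σ (f v)) with hT
  set U : Fin n → Finset (Fin n) := fun v =>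
    univ.filter (fun u => f u = ρ (g v) ∧ g u = g v) with hU
  have hUm : ∀ v, m ≤ (U v).card := by
    intro v
    have h := hm (ρ (g v))
    rw [hρ] at h
    exact h
  have hUn : ∀ v, (U v).card ≤ n := by
    intro v
    have := Finset.card_le_univ (U v)
    simpa using this
  have hfv : ∀ v ∈ T, f v ≠ ρ (g v) := by
    intro v hv hc
    simp only [hT, mem_filter, mem_univ, true_and] at hv
    apply hv
    rw [hc, hρ]
  have hvU : ∀ v : {v // v ∈ T}, v.1 ∉ U v.1 := by
    intro v hv
    simp only [hU, mem_filter, mem_univ, true_and] at hv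
    exact hfv v.1 v.2 hv.1
  set R : Finset (Sym2 (Fin n)) := (T.sigma U).image (fun p => s(p.1, p.2)) with hR
  have hinj : Set.InjOn (fun p : (Σ _ : Fin n, Fin n) => s(p.1, p.2)) (T.sigma U : Finset _) := by
    rintro ⟨v, u⟩ hp ⟨v', u'⟩ hp' he
    simp only [coe_sigma, Set.mem_sigma_iff, mem_coe, hT, hU, mem_filter, mem_univ,
      true_and] at hp hp'
    simp only [Sym2.eq_iff] at he
    rcases he with ⟨rfl, rfl⟩ | ⟨rfl, rfl⟩
    · rfl
    · exfalso
      apply hp.1
      obtain ⟨-, h2, h3⟩ := hp'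
      rw [h3, h2, hρ]
  have hRc : R.card = ∑ v ∈ T, (U v).card := by
    rw [hR, Finset.card_image_of_injOn hinj, card_sigma]
  have hRs : R ⊆ crs f := by
    intro y hy
    rw [hR, Finset.mem_image] at hy
    obtain ⟨⟨v, u⟩, hp, rfl⟩ := hy
    rw [Finset.mem_sigma] at hp
    obtain ⟨hv, hu⟩ := hp
    simp only [hU, mem_filter, mem_univ, true_and] at hu
    show s(v, u) ∈ crs f
    rw [mem_crs, cross_mk]
    rw [hu.1]
    exact hfv v hv
  have h1 := card_le_trace f G0 (univ.filter (fun G => Agree f G0 G ∧ Parts Φ g G))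
    (fun G hG => by
      simp only [mem_filter, mem_univ, true_and] at hG
      exact hG.1)
    (β := (v : {v // v ∈ T}) → SimpleGraph (Fin ((U v.1).card + 1)))
    (Fintype.piFinset (fun v : {v // v ∈ T} => univ.filter (fun G =>
      G ∈ Φ (g v.1) ((U v.1).card + 1) ∧ G.comap Fin.castSucc = G0.comap (enum (U v.1)))))
    (fun G v => G.comap (enumS (U v.1) v.1 (hvU v)))
    (fun G hG => by
      simp only [mem_filter, mem_univ, true_and] at hG
      rw [Fintype.mem_piFinset]
      intro v
      simp only [mem_filter, mem_univ, true_and]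
      refine ⟨?_, ?_⟩
      · apply hG.2
        intro a
        refine Fin.lastCases ?_ (fun a' => ?_) a
        · rw [enumS_last]
        · rw [enumS_castSucc]
          have := enum_mem (U v.1) a'
          simp only [hU, mem_filter, mem_univ, true_and] at this
          exact this.2
      · ext a b
        simp only [SimpleGraph.comap_adj, enumS_castSucc]
        have ha := enum_mem (U v.1) a
        have hb := enum_mem (U v.1) b
        simp only [hU, mem_filter, mem_univ, true_and] at ha hb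
        exact (hG.1 _ _ (ha.1.trans hb.1.symm)).symm)
    R
    (fun G hG G' hG' hτ y hy _ => by
      rw [hR, Finset.mem_image] at hy
      obtain ⟨⟨v, u⟩, hp, rfl⟩ := hy
      rw [Finset.mem_sigma] at hp
      obtain ⟨hv, hu⟩ := hp
      obtain ⟨a, ha⟩ := exists_enum (U v) u hu
      have h2 := congrFun hτ ⟨v, hv⟩
      have h3 : (G.comap (enumS (U v) v (hvU ⟨v, hv⟩))).Adj (Fin.last _) a.castSucc ↔
          (G'.comap (enumS (U v) v (hvU ⟨v, hv⟩))).Adj (Fin.last _) a.castSucc := by
        rw [show G.comap (enumS (U v) v (hvU ⟨v, hv⟩)) =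
          G'.comap (enumS (U v) v (hvU ⟨v, hv⟩)) from h2]
      simp only [SimpleGraph.comap_adj, enumS_last, enumS_castSucc, ha] at h3
      simpa using h3)
  rw [Fintype.card_piFinset] at h1
  have h2 : (((univ.filter (fun G => Agree f G0 G ∧ Parts Φ g G)).card : ℕ) : ℝ) ≤
      2 ^ (crs f \ R).card * ∏ v : {v // v ∈ T}, (x * 2 ^ (U v.1).card) := by
    have h3 : (((univ.filter (fun G => Agree f G0 G ∧ Parts Φ g G)).card : ℕ) : ℝ) ≤
      2 ^ (crs f \ R).card * ∏ v : {v // v ∈ T}, ((univ.filter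
        (fun G : SimpleGraph (Fin ((U v.1).card + 1)) => G ∈ Φ (g v.1) ((U v.1).card + 1) ∧
          G.comap Fin.castSucc = G0.comap (enum (U v.1)))).card : ℝ) := by
      exact_mod_cast h1
    refine h3.trans (mul_le_mul_of_nonneg_left ?_ (by positivity))
    apply Finset.prod_le_prod
    · intro v _
      exact Nat.cast_nonneg _
    · intro v _
      refine le_trans ?_ (hex _ (hUm v.1) (hUn v.1))
      have h4 := he (g v.1) (U v.1).card (G0.comap (enum (U v.1)))
      have h5 : (univ.filter
        (fun G : SimpleGraph (Fin ((U v.1).card + 1)) => G ∈ Φ (g v.1) ((U v.1).card + 1) ∧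
          G.comap Fin.castSucc = G0.comap (enum (U v.1)))).card ≤ e (U v.1).card := by
        refine le_trans (le_of_eq ?_) h4
        rw [← Set.ncard_coe_finset]
        congr 1
        ext G
        simp
      exact_mod_cast h5
  refine h2.trans ?_
  rw [Finset.prod_mul_distrib, Finset.prod_const, Finset.prod_pow_eq_pow_sum, Finset.card_univ,
    Fintype.card_coe]
  have h6 : ∑ v : {v // v ∈ T}, (U v.1).card = R.card := by
    rw [hRc]
    exact Finset.sum_coe_sort T (fun v => (U v).card)
  rw [h6]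
  have h7 := two_pow_sdiff _ _ hRs _ (le_refl R.card)
  have hx : 0 ≤ x ^ T.card := by
    rcases T.eq_empty_or_nonempty with h0 | ⟨v, hv⟩
    · rw [h0]; simp
    · have h8 := hex _ (hUm v) (hUn v)
      have h9 : (0 : ℝ) ≤ x * 2 ^ (U v).card := le_trans (Nat.cast_nonneg _) h8
      have h10 : (0 : ℝ) ≤ x := nonneg_of_mul_nonneg_left h9 (by positivity)
      positivity
  calc (2 : ℝ) ^ (crs f \ R).card * (x ^ T.card * 2 ^ R.card)
      ≤ (2 ^ (crs f).card * (1 / 2) ^ R.card) * (x ^ T.card * 2 ^ R.card) :=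
        mul_le_mul_of_nonneg_right h7 (by positivity)
    _ = 2 ^ (crs f).card * x ^ T.card * ((1 / 2) ^ R.card * 2 ^ R.card) := by ring
    _ = 2 ^ (crs f).card * x ^ T.card := by
        rw [← mul_pow]
        norm_num

open Classical in
/-- The total overlap of a balanced partition with all partitions. -/
theorem total (Φ : Fin r → (m : ℕ) → Set (SimpleGraph (Fin m))) (hΦ : ∀ i, Hereditary (Φ i))
    (e : ℕ → ℕ) (he : ∀ i, FewExt e (Φ i)) (E : ℝ) (hE : 1 ≤ E) (heE : ∀ k ≤ n, (e k : ℝ) ≤ E)
    (x : ℝ) (hx : 0 ≤ x) (m : ℕ) (hex : ∀ k, m ≤ k → k ≤ n → (e k : ℝ) ≤ x * 2 ^ k)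
    (f : Fin n → Fin r) (hf : Bal m f) :
    ∑ g : Fin n → Fin r,
        ((univ.filter (fun G : SimpleGraph (Fin n) => Parts Φ f G ∧ Parts Φ g G)).card : ℝ) ≤
      (univ.filter (fun G : SimpleGraph (Fin n) => Parts Φ f G)).card *
        ((r : ℝ) ^ n * (E ^ n * (1 / 2) ^ (m * m)) + (r : ℝ) ^ r * (1 + r * x) ^ n) := by
  have hE0 : 0 ≤ E := by linarith
  have key : ∀ (G0 : SimpleGraph (Fin n)) (g : Fin n → Fin r),
      ((univ.filter (fun G => Agree f G0 G ∧ Parts Φ g G)).card : ℝ) ≤
      2 ^ (crs f).card * (E ^ n * (1 / 2) ^ (m * m) +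
        ∑ σ : Fin r → Fin r, x ^ (univ.filter (fun v => g v ≠ σ (f v))).card) := by
    intro G0 g
    have h1 : ∀ i, ∃ j, m ≤ (univ.filter (fun v => f v = i ∧ g v = j)).card := by
      intro i
      have hne : (univ : Finset (Fin r)).Nonempty := ⟨i, mem_univ i⟩
      obtain ⟨j, -, hj⟩ := Finset.exists_le_card_fiber_of_mul_le_card_of_maps_to
        (s := univ.filter (fun v => f v = i)) (t := univ) (f := g) (n := m)
        (fun a _ => mem_univ _) hne (by simpa using hf i)
      refine ⟨j, ?_⟩
      rw [filter_filter] at hj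
      exact hj
    choose σ hσ using h1
    have hnn : ∀ σ : Fin r → Fin r, (0 : ℝ) ≤ x ^ (univ.filter (fun v => g v ≠ σ (f v))).card :=
      fun σ => by positivity
    have hs : (0 : ℝ) ≤ ∑ σ : Fin r → Fin r, x ^ (univ.filter (fun v => g v ≠ σ (f v))).card :=
      Finset.sum_nonneg (fun σ _ => hnn σ)
    by_cases hinj : Function.Injective σ
    · have h2 := caseB Φ e he x m hex f g G0 σ (Finite.surjective_of_injective hinj) hσ
      refine h2.trans (mul_le_mul_of_nonneg_left ?_ (by positivity))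
      have h3 := Finset.single_le_sum (f := fun σ : Fin r → Fin r =>
          x ^ (univ.filter (fun v => g v ≠ σ (f v))).card) (fun σ _ => hnn σ) (mem_univ σ)
      have h4 : (0 : ℝ) ≤ E ^ n * (1 / 2) ^ (m * m) := by positivity
      linarith
    · rw [Function.Injective] at hinj
      push Not at hinj
      obtain ⟨i, i', he', hne⟩ := hinj
      have h2 := caseA Φ hΦ e he E hE heE f g G0 i i' (σ i) hne m (hσ i) (he' ▸ hσ i')
      refine h2.trans (mul_le_mul_of_nonneg_left ?_ (by positivity))
      linarith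
  have h1 := sum_parts_le Φ f
    (fun G => ∑ g : Fin n → Fin r, (if Parts Φ g G then (1 : ℝ) else 0))
    ((r : ℝ) ^ n * (E ^ n * (1 / 2) ^ (m * m)) + (r : ℝ) ^ r * (1 + r * x) ^ n) ?_
  · rw [mul_comm]
    refine le_trans (le_of_eq ?_) h1
    rw [Finset.sum_comm]
    refine Finset.sum_congr rfl (fun g _ => ?_)
    rw [← Finset.sum_filter, Finset.filter_filter]
    simp
  · intro G0 _
    rw [Finset.sum_comm]
    have h2 : ∀ g : Fin n → Fin r, ∑ G ∈ univ.filter (fun G => Agree f G0 G),
        (if Parts Φ g G then (1 : ℝ) else 0) ≤ 2 ^ (crs f).card * (E ^ n * (1 / 2) ^ (m * m) +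
        ∑ σ : Fin r → Fin r, x ^ (univ.filter (fun v => g v ≠ σ (f v))).card) := by
      intro g
      rw [← Finset.sum_filter, Finset.filter_filter]
      simpa using key G0 g
    refine (Finset.sum_le_sum (fun g _ => h2 g)).trans ?_
    rw [← Finset.mul_sum, mul_comm]
    apply mul_le_mul_of_nonneg_right _ (by positivity)
    rw [Finset.sum_add_distrib, Finset.sum_comm]
    apply add_le_add
    · simp
    · have h3 : ∀ σ ∈ (univ : Finset (Fin r → Fin r)), ∑ g : Fin n → Fin r,
          x ^ (univ.filter (fun v => g v ≠ σ (f v))).card ≤ (1 + r * x) ^ n := fun σ _ =>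
        sum_pow_diff_le (fun v => σ (f v)) x hx
      refine (Finset.sum_le_sum h3).trans ?_
      simp

end Pool.Agent.Q6.HP
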