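import Pool.Agent.Q129.AAC.Size

/-!
# Partitions of the vertices into parts which induce members of hereditary classes
-/

set_option autoImplicit false
set_option maxHeartbeats 400000

namespace Pool.Agent.Q6.HP

open Finset Pool.Agent.Q129.AAC

/-- A class of graphs, given by its members on the vertex sets `Fin m`, is closed under
isomorphisms and induced subgraphs. -/
def Hereditary (Φ : (m : ℕ) → Set (SimpleGraph (Fin m))) : Prop :=
  ∀ (m n : ℕ) (φ : Fin m ↪ Fin n) (G : SimpleGraph (Fin n)), G ∈ Φ n → G.comap φ ∈ Φ m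

/-- Every graph on `m` vertices has at most `e m` extensions by one vertex in the class. -/
def FewExt (e : ℕ → ℕ) (Φ : (m : ℕ) → Set (SimpleGraph (Fin m))) : Prop :=
  ∀ (m : ℕ) (H : SimpleGraph (Fin m)),
    {G : SimpleGraph (Fin (m + 1)) | G ∈ Φ (m + 1) ∧ G.comap Fin.castSucc = H}.ncard ≤ e m

variable {n r : ℕ}

/-- The parts of `f` induce members of the classes. -/
def Parts (Φ : Fin r → (m : ℕ) → Set (SimpleGraph (Fin m))) (f : Fin n → Fin r)
    (G : SimpleGraph (Fin n)) : Prop :=
  ∀ (i : Fin r) (m : ℕ) (φ : Fin m ↪ Fin n), (∀ a, f (φ a) = i) → G.comap φ ∈ Φ i m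

/-- The graphs agree inside the parts. -/
def Agree (f : Fin n → Fin r) (G G' : SimpleGraph (Fin n)) : Prop :=
  ∀ a b, f a = f b → (G.Adj a b ↔ G'.Adj a b)

theorem Agree.symm {f : Fin n → Fin r} {G G' : SimpleGraph (Fin n)} (h : Agree f G G') :
    Agree f G' G := fun a b he => (h a b he).symm

theorem Agree.trans {f : Fin n → Fin r} {G G' G'' : SimpleGraph (Fin n)} (h : Agree f G G')
    (h' : Agree f G' G'') : Agree f G G'' := fun a b he => (h a b he).trans (h' a b he)

theorem parts_of_agree {Φ : Fin r → (m : ℕ) → Set (SimpleGraph (Fin m))} {f : Fin n → Fin r}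
    {G G' : SimpleGraph (Fin n)} (h : Agree f G G') (hG : Parts Φ f G) : Parts Φ f G' := by
  intro i m φ hφ
  have : G'.comap φ = G.comap φ := by
    ext a b
    simp only [SimpleGraph.comap_adj]
    exact (h _ _ ((hφ a).trans (hφ b).symm)).symm
  rw [this]
  exact hG i m φ hφ

/-- The edges inside the parts. -/
def FI (f : Fin n → Fin r) (G : SimpleGraph (Fin n)) : SimpleGraph (Fin n) where
  Adj a b := f a = f b ∧ G.Adj a b
  symm := ⟨fun _ _ h => ⟨h.1.symm, h.2.symm⟩⟩
  loopless := ⟨fun a h => G.irrefl h.2⟩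

/-- The edges inside the parts and all pairs between the parts. -/
def BI (f : Fin n → Fin r) (G : SimpleGraph (Fin n)) : SimpleGraph (Fin n) where
  Adj a b := a ≠ b ∧ (f a = f b → G.Adj a b)
  symm := ⟨fun _ _ h => ⟨h.1.symm, fun e => (h.2 e.symm).symm⟩⟩
  loopless := ⟨fun _ h => h.1 rfl⟩

theorem FI_le_BI (f : Fin n → Fin r) (G : SimpleGraph (Fin n)) : FI f G ≤ BI f G :=
  fun _ _ h => ⟨h.2.ne, fun _ => h.2⟩

theorem agree_iff (f : Fin n → Fin r) (G0 G : SimpleGraph (Fin n)) :
    Agree f G0 G ↔ FI f G0 ≤ G ∧ G ≤ BI f G0 := by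
  constructor
  · intro h
    exact ⟨fun a b hab => (h a b hab.1).1 hab.2, fun a b hab => ⟨hab.ne, fun e => (h a b e).2 hab⟩⟩
  · rintro ⟨h1, h2⟩ a b he
    exact ⟨fun h => h1 ⟨he, h⟩, fun h => (h2 h).2 he⟩

theorem diff_BI (f : Fin n → Fin r) (G : SimpleGraph (Fin n)) :
    (BI f G).edgeSet \ (FI f G).edgeSet = (crs f : Set (Sym2 (Fin n))) := by
  ext e
  induction e with
  | _ u v =>
    simp only [Set.mem_sdiff, SimpleGraph.mem_edgeSet, Finset.mem_coe, mem_crs, cross_mk]
    constructor
    · rintro ⟨h1, h2⟩ he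
      exact h2 ⟨he, h1.2 he⟩
    · intro h
      exact ⟨⟨fun e => h (congrArg f e), fun e => absurd e h⟩, fun h' => h h'.1⟩

theorem ncard_agree (f : Fin n → Fin r) (G0 : SimpleGraph (Fin n)) :
    {G : SimpleGraph (Fin n) | Agree f G0 G}.ncard = 2 ^ (crs f).card := by
  have h1 : {G : SimpleGraph (Fin n) | Agree f G0 G} = {G | FI f G0 ≤ G ∧ G ≤ BI f G0} := by
    ext G
    exact agree_iff f G0 G
  rw [h1, ncard_interval _ _ (FI_le_BI f G0), diff_BI, Set.ncard_coe_finset]

open Classical in
theorem card_agree (f : Fin n → Fin r) (G0 : SimpleGraph (Fin n)) :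
    (univ.filter (fun G => Agree f G0 G)).card = 2 ^ (crs f).card := by
  rw [← ncard_agree f G0, ← Set.ncard_coe_finset]
  congr 1
  ext G
  simp

open Classical in
/-- A weighted count over the graphs of a partition from the counts over the classes of graphs
which agree inside the parts. -/
theorem sum_parts_le (Φ : Fin r → (m : ℕ) → Set (SimpleGraph (Fin m))) (f : Fin n → Fin r)
    (w : SimpleGraph (Fin n) → ℝ) (α : ℝ)
    (h : ∀ G0, Parts Φ f G0 → ∑ G ∈ univ.filter (fun G => Agree f G0 G), w G ≤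
      α * 2 ^ (crs f).card) :
    ∑ G ∈ univ.filter (fun G => Parts Φ f G), w G ≤
      α * (univ.filter (fun G : SimpleGraph (Fin n) => Parts Φ f G)).card := by
  have h1 : ∑ G0 ∈ univ.filter (fun G => Parts Φ f G),
      ∑ G ∈ univ.filter (fun G => Agree f G0 G), w G =
      ∑ G ∈ univ.filter (fun G => Parts Φ f G), (2 : ℝ) ^ (crs f).card * w G := by
    have e1 : ∀ G0 ∈ univ.filter (fun G : SimpleGraph (Fin n) => Parts Φ f G),
        ∑ G ∈ univ.filter (fun G => Agree f G0 G), w G =
          ∑ G ∈ univ.filter (fun G : SimpleGraph (Fin n) => Parts Φ f G),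
            (if Agree f G G0 then w G else 0) := by
      intro G0 hG0
      simp only [mem_filter, mem_univ, true_and] at hG0
      rw [← Finset.sum_filter]
      apply Finset.sum_congr _ (fun _ _ => rfl)
      ext G
      simp only [mem_filter, mem_univ, true_and]
      exact ⟨fun h => ⟨parts_of_agree h hG0, h.symm⟩, fun h => h.2.symm⟩
    rw [Finset.sum_congr rfl e1, Finset.sum_comm]
    refine Finset.sum_congr rfl (fun G hG => ?_)
    simp only [mem_filter, mem_univ, true_and] at hG
    rw [← Finset.sum_filter, Finset.sum_const, nsmul_eq_mul]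
    congr 1
    have e2 : (univ.filter (fun G : SimpleGraph (Fin n) => Parts Φ f G)).filter
        (fun G0 => Agree f G G0) = univ.filter (fun G0 => Agree f G G0) := by
      ext G0
      simp only [mem_filter, mem_univ, true_and]
      exact ⟨fun h => h.2, fun h => ⟨parts_of_agree h hG, h⟩⟩
    rw [e2, card_agree]
    push_cast
    rfl
  have h2 : ∑ G0 ∈ univ.filter (fun G => Parts Φ f G),
      ∑ G ∈ univ.filter (fun G => Agree f G0 G), w G ≤
      ∑ _G0 ∈ univ.filter (fun G : SimpleGraph (Fin n) => Parts Φ f G),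
        α * (2 : ℝ) ^ (crs f).card := by
    apply Finset.sum_le_sum
    intro G0 hG0
    simp only [mem_filter, mem_univ, true_and] at hG0
    exact h G0 hG0
  rw [h1, ← Finset.mul_sum, Finset.sum_const, nsmul_eq_mul] at h2
  have h3 : (0 : ℝ) < 2 ^ (crs f).card := by positivity
  have h4 : (2 : ℝ) ^ (crs f).card * ∑ G ∈ univ.filter (fun G => Parts Φ f G), w G ≤
      2 ^ (crs f).card * (α * (univ.filter (fun G : SimpleGraph (Fin n) => Parts Φ f G)).card) := by
    refine h2.trans (le_of_eq (by ring))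
  exact le_of_mul_le_mul_left h4 h3

/-- Counting graphs which agree inside the parts by their traces. -/
theorem card_le_trace (f : Fin n → Fin r) (G0 : SimpleGraph (Fin n))
    (Γ : Finset (SimpleGraph (Fin n))) (hΓ : ∀ G ∈ Γ, Agree f G0 G) {β : Type} (Y : Finset β)
    (τ : SimpleGraph (Fin n) → β) (hτ : ∀ G ∈ Γ, τ G ∈ Y) (R : Finset (Sym2 (Fin n)))
    (hR : ∀ G ∈ Γ, ∀ G' ∈ Γ, τ G = τ G' → ∀ e ∈ R, e ∈ crs f → (e ∈ G.edgeSet ↔ e ∈ G'.edgeSet)) :
    Γ.card ≤ 2 ^ (crs f \ R).card * Y.card := by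
  classical
  rw [← Finset.card_powerset, ← Finset.card_product]
  apply Finset.card_le_card_of_injOn
    (fun G => ((crs f \ R).filter (fun e => e ∈ G.edgeSet), τ G))
  · intro G hG
    rw [mem_coe] at hG
    rw [mem_coe, mem_product, mem_powerset]
    exact ⟨Finset.filter_subset _ _, hτ G hG⟩
  · intro G hG G' hG' he
    rw [mem_coe] at hG hG'
    simp only [Prod.mk.injEq] at he
    obtain ⟨h1, h2⟩ := he
    ext a b
    by_cases hab : f a = f b
    · rw [← hΓ G hG a b hab, ← hΓ G' hG' a b hab]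
    · have hc : s(a, b) ∈ crs f := by
        rw [mem_crs, cross_mk]
        exact hab
      by_cases hr : s(a, b) ∈ R
      · exact hR G hG G' hG' h2 _ hr hc
      · have h3 : s(a, b) ∈ crs f \ R := Finset.mem_sdiff.2 ⟨hc, hr⟩
        have h4 := congrArg (fun X => s(a, b) ∈ X) h1
        simp only [mem_filter, h3, true_and, eq_iff_iff] at h4
        exact h4

open Classical in
/-- The number of members of a class. -/
theorem card_class (Φ : (m : ℕ) → Set (SimpleGraph (Fin m))) (hΦ : Hereditary Φ) (e : ℕ → ℕ)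
    (he : FewExt e Φ) (E : ℝ) (hE : 1 ≤ E) (n : ℕ) (heE : ∀ k ≤ n, (e k : ℝ) ≤ E) :
    ∀ u ≤ n, ((univ.filter (fun H : SimpleGraph (Fin u) => H ∈ Φ u)).card : ℝ) ≤ E ^ u := by
  intro u
  induction u with
  | zero =>
    intro _
    have h1 : (univ.filter (fun H : SimpleGraph (Fin 0) => H ∈ Φ 0)).card ≤ 1 := by
      rw [Finset.card_le_one]
      intro a _ b _
      exact Subsingleton.elim a b
    simpa using h1
  | succ u ih =>
    intro hu
    have h1 := ih (by omega)
    have h2 : (univ.filter (fun H : SimpleGraph (Fin (u + 1)) => H ∈ Φ (u + 1))) ⊆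
        (univ.filter (fun H : SimpleGraph (Fin u) => H ∈ Φ u)).biUnion (fun H =>
          univ.filter (fun G : SimpleGraph (Fin (u + 1)) =>
            G ∈ Φ (u + 1) ∧ G.comap Fin.castSucc = H)) := by
      intro G hG
      simp only [mem_filter, mem_univ, true_and] at hG
      rw [Finset.mem_biUnion]
      refine ⟨G.comap Fin.castSucc, ?_, ?_⟩
      · simp only [mem_filter, mem_univ, true_and]
        exact hΦ u (u + 1) Fin.castSuccEmb G hG
      · simp only [mem_filter, mem_univ, true_and]
        exact ⟨hG, trivial⟩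
    have h3 : ∀ H : SimpleGraph (Fin u), (univ.filter (fun G : SimpleGraph (Fin (u + 1)) =>
        G ∈ Φ (u + 1) ∧ G.comap Fin.castSucc = H)).card ≤ e u := by
      intro H
      refine le_trans (le_of_eq ?_) (he u H)
      rw [← Set.ncard_coe_finset]
      congr 1
      ext G
      simp
    have h4 := (Finset.card_le_card h2).trans Finset.card_biUnion_le
    have h5 : ((univ.filter (fun H : SimpleGraph (Fin (u + 1)) => H ∈ Φ (u + 1))).card : ℝ) ≤
        ∑ H ∈ univ.filter (fun H : SimpleGraph (Fin u) => H ∈ Φ u), E := by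
      have h6 : ((univ.filter (fun H : SimpleGraph (Fin (u + 1)) => H ∈ Φ (u + 1))).card : ℝ) ≤
        ∑ H ∈ univ.filter (fun H : SimpleGraph (Fin u) => H ∈ Φ u),
          ((univ.filter (fun G : SimpleGraph (Fin (u + 1)) =>
            G ∈ Φ (u + 1) ∧ G.comap Fin.castSucc = H)).card : ℝ) := by exact_mod_cast h4
      refine h6.trans (Finset.sum_le_sum (fun H _ => ?_))
      have h7 : ((univ.filter (fun G : SimpleGraph (Fin (u + 1)) =>
            G ∈ Φ (u + 1) ∧ G.comap Fin.castSucc = H)).card : ℝ) ≤ (e u : ℝ) := by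
        exact_mod_cast h3 H
      exact h7.trans (heE u (by omega))
    rw [Finset.sum_const, nsmul_eq_mul] at h5
    rw [pow_succ]
    exact h5.trans (mul_le_mul_of_nonneg_right h1 (by linarith))

end Pool.Agent.Q6.HP
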