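import Pool.Agent.Q6.HP.Over

/-!
# Second moment
-/

set_option autoImplicit false
set_option maxHeartbeats 400000

namespace Pool.Agent.Q6.HP

open Finset Pool.Agent.Q129.AAC

open Classical in
theorem second_moment {ι Γ : Type} [Fintype ι] [Fintype Γ] (R : ι → Γ → Prop) (P : Γ → Prop)
    (bal : Finset ι) (D ε : ℝ) (hε : 0 ≤ ε) (hD : 0 ≤ D)
    (h1 : ∀ f ∈ bal, ∑ g : ι, ((univ.filter (fun G => R f G ∧ R g G)).card : ℝ) ≤
      (univ.filter (fun G => R f G)).card * D)
    (h2 : ∀ f ∈ bal, ((univ.filter (fun G => R f G ∧ ¬ P G)).card : ℝ) ≤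
      ε * (univ.filter (fun G => R f G)).card)
    (h3 : ∀ s : Finset ι, (∀ f ∈ s, f ∉ bal) → ∑ f ∈ s, ((univ.filter (fun G => R f G)).card : ℝ) ≤
      ε * ∑ f ∈ bal, ((univ.filter (fun G => R f G)).card : ℝ)) :
    ((univ.filter (fun G => (∃ f, R f G) ∧ ¬ P G)).card : ℝ) ≤
      2 * D * ε * (univ.filter (fun G => ∃ f, R f G)).card := by
  set W : ℝ := ∑ f ∈ bal, ((univ.filter (fun G => R f G)).card : ℝ) with hW
  have hW0 : 0 ≤ W := Finset.sum_nonneg (fun _ _ => Nat.cast_nonneg _)
  set A : Finset Γ := univ.filter (fun G => ∃ f, R f G) with hA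
  set X : Γ → ℝ := fun G => ∑ f ∈ bal, (if R f G then (1 : ℝ) else 0) with hX
  have hA' : ∀ f : ι, A.filter (fun G => R f G) = univ.filter (fun G => R f G) := by
    intro f
    ext G
    simp only [hA, mem_filter, mem_univ, true_and, and_iff_right_iff_imp]
    exact fun h => ⟨f, h⟩
  have hsum1 : ∑ G ∈ A, X G = W := by
    simp only [hX]
    rw [Finset.sum_comm]
    refine Finset.sum_congr rfl (fun f _ => ?_)
    rw [← hA' f]
    simp
  have hsum2 : ∑ G ∈ A, X G ^ 2 ≤ W * D := by
    have e1 : ∀ G, X G ^ 2 = ∑ f ∈ bal, ∑ g ∈ bal,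
        (if R f G ∧ R g G then (1 : ℝ) else 0) := by
      intro G
      rw [sq, hX, Finset.sum_mul_sum]
      refine Finset.sum_congr rfl (fun f _ => Finset.sum_congr rfl (fun g _ => ?_))
      by_cases h1 : R f G <;> by_cases h2 : R g G <;> simp [h1, h2]
    simp only [e1]
    rw [Finset.sum_comm, hW, Finset.sum_mul]
    refine Finset.sum_le_sum (fun f hf => ?_)
    rw [Finset.sum_comm]
    calc ∑ g ∈ bal, ∑ G ∈ A, (if R f G ∧ R g G then (1 : ℝ) else 0)
        ≤ ∑ g ∈ bal, ((univ.filter (fun G => R f G ∧ R g G)).card : ℝ) := by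
          refine Finset.sum_le_sum (fun g _ => ?_)
          rw [Finset.sum_ite, Finset.sum_const_zero, add_zero, Finset.sum_const]
          rw [nsmul_eq_mul, mul_one]
          exact_mod_cast Finset.card_le_card (Finset.filter_subset_filter _ (Finset.subset_univ _))
      _ ≤ ∑ g : ι, ((univ.filter (fun G => R f G ∧ R g G)).card : ℝ) :=
          Finset.sum_le_sum_of_subset_of_nonneg (Finset.subset_univ _)
            (fun g _ _ => Nat.cast_nonneg _)
      _ ≤ _ := h1 f hf
  have hcs := sq_sum_le_card_mul_sum_sq (s := A) (f := X)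
  rw [hsum1] at hcs
  have hWA : W ≤ A.card * D := by
    rcases hW0.eq_or_lt with h0 | h0
    · rw [← h0]
      positivity
    · have h1 : W ^ 2 ≤ (A.card : ℝ) * (W * D) :=
        hcs.trans (mul_le_mul_of_nonneg_left hsum2 (Nat.cast_nonneg _))
      nlinarith
  have hB : ((univ.filter (fun G => (∃ f, R f G) ∧ ¬ P G)).card : ℝ) ≤
      ∑ f ∈ bal, ((univ.filter (fun G => R f G ∧ ¬ P G)).card : ℝ) +
      ∑ f ∈ univ.filter (fun f => f ∉ bal), ((univ.filter (fun G => R f G)).card : ℝ) := by
    have e1 : univ.filter (fun G => (∃ f, R f G) ∧ ¬ P G) ⊆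
        bal.biUnion (fun f => univ.filter (fun G => R f G ∧ ¬ P G)) ∪
        (univ.filter (fun f => f ∉ bal)).biUnion (fun f => univ.filter (fun G => R f G)) := by
      intro G hG
      simp only [mem_filter, mem_univ, true_and] at hG
      obtain ⟨⟨f, hf⟩, hP⟩ := hG
      rw [mem_union]
      by_cases hfb : f ∈ bal
      · left
        simp only [mem_biUnion, mem_filter, mem_univ, true_and]
        exact ⟨f, hfb, hf, hP⟩
      · right
        simp only [mem_biUnion, mem_filter, mem_univ, true_and]
        exact ⟨f, hfb, hf⟩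
    have e2 := (Finset.card_le_card e1).trans (Finset.card_union_le _ _)
    have e3 := Finset.card_biUnion_le (s := bal) (t := fun f => univ.filter (fun G => R f G ∧ ¬ P G))
    have e4 := Finset.card_biUnion_le (s := univ.filter (fun f => f ∉ bal))
      (t := fun f => univ.filter (fun G => R f G))
    exact_mod_cast e2.trans (Nat.add_le_add e3 e4)
  have hB2 : ∑ f ∈ bal, ((univ.filter (fun G => R f G ∧ ¬ P G)).card : ℝ) ≤ ε * W := by
    rw [hW, Finset.mul_sum]
    exact Finset.sum_le_sum h2
  have h8 : ε * W ≤ ε * (A.card * D) := mul_le_mul_of_nonneg_left hWA hε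
  have h9 := h3 (univ.filter (fun f => f ∉ bal)) (fun f hf => by simpa using hf)
  nlinarith

variable {n r : ℕ}

open Classical in
/-- An upper bound for the number of graphs of a partition. -/
theorem card_parts_le (Φ : Fin r → (m : ℕ) → Set (SimpleGraph (Fin m)))
    (hΦ : ∀ i, Hereditary (Φ i)) (e : ℕ → ℕ) (he : ∀ i, FewExt e (Φ i)) (E : ℝ) (hE : 1 ≤ E)
    (heE : ∀ k ≤ n, (e k : ℝ) ≤ E) (f : Fin n → Fin r) :
    ((univ.filter (fun G : SimpleGraph (Fin n) => Parts Φ f G)).card : ℝ) ≤
      E ^ n * 2 ^ (crs f).card := by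
  set V : Fin r → Finset (Fin n) := fun i => univ.filter (fun v => f v = i) with hV
  have h1 : (univ.filter (fun G : SimpleGraph (Fin n) => Parts Φ f G)).card ≤
      ((crs f).powerset ×ˢ Fintype.piFinset (fun i : Fin r =>
        univ.filter (fun H : SimpleGraph (Fin (V i).card) => H ∈ Φ i (V i).card))).card := by
    apply Finset.card_le_card_of_injOn
      (fun G => ((crs f).filter (fun e => e ∈ G.edgeSet), fun i => G.comap (enum (V i))))
    · intro G hG
      simp only [coe_filter, mem_univ, true_and, Set.mem_ofPred_eq] at hG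
      rw [mem_coe, mem_product, mem_powerset, Fintype.mem_piFinset]
      refine ⟨Finset.filter_subset _ _, fun i => ?_⟩
      simp only [mem_filter, mem_univ, true_and]
      apply hG
      intro a
      have := enum_mem (V i) a
      simpa [hV] using this
    · intro G hG G' hG' he
      simp only [Prod.mk.injEq] at he
      obtain ⟨h1, h2⟩ := he
      ext a b
      by_cases hab : f a = f b
      · obtain ⟨x, hx⟩ := exists_enum (V (f a)) a (by simp [hV])
        obtain ⟨y, hy⟩ := exists_enum (V (f a)) b (by simp [hV, hab])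
        have h3 : (G.comap (enum (V (f a)))).Adj x y ↔ (G'.comap (enum (V (f a)))).Adj x y := by
          rw [show G.comap (enum (V (f a))) = G'.comap (enum (V (f a))) from congrFun h2 (f a)]
        simp only [SimpleGraph.comap_adj, hx, hy] at h3
        exact h3
      · have hc : s(a, b) ∈ crs f := by
          rw [mem_crs, cross_mk]
          exact hab
        have h4 := congrArg (fun X => s(a, b) ∈ X) h1
        simp only [mem_filter, hc, true_and, eq_iff_iff] at h4
        exact h4
  rw [Finset.card_product, Finset.card_powerset, Fintype.card_piFinset] at h1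
  have h2 : ((univ.filter (fun G : SimpleGraph (Fin n) => Parts Φ f G)).card : ℝ) ≤
      2 ^ (crs f).card * ∏ i, ((univ.filter (fun H : SimpleGraph (Fin (V i).card) =>
        H ∈ Φ i (V i).card)).card : ℝ) := by exact_mod_cast h1
  have h3 : ∏ i, ((univ.filter (fun H : SimpleGraph (Fin (V i).card) =>
        H ∈ Φ i (V i).card)).card : ℝ) ≤ ∏ i, E ^ (V i).card := by
    apply Finset.prod_le_prod
    · intro i _
      exact Nat.cast_nonneg _
    · intro i _
      have hUn : (V i).card ≤ n := by
        have := Finset.card_le_univ (V i)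
        simpa using this
      exact card_class (Φ i) (hΦ i) e (he i) E hE n heE _ hUn
  rw [Finset.prod_pow_eq_pow_sum, sum_parts f] at h3
  refine h2.trans ?_
  rw [mul_comm]
  exact mul_le_mul_of_nonneg_right h3 (by positivity)

/-- Every partition has a graph. -/
theorem exists_parts (Φ : Fin r → (m : ℕ) → Set (SimpleGraph (Fin m)))
    (hΦ : ∀ i, Hereditary (Φ i)) (hne : ∀ i m, (Φ i m).Nonempty) (f : Fin n → Fin r) :
    ∃ G : SimpleGraph (Fin n), Parts Φ f G := by
  classical
  set V : Fin r → Finset (Fin n) := fun i => univ.filter (fun v => f v = i) with hV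
  choose H hH using fun i => hne i (V i).card
  refine ⟨{ Adj := fun u v => ∃ i, ∃ a b : Fin (V i).card, enum (V i) a = u ∧ enum (V i) b = v ∧
              (H i).Adj a b
            symm := ⟨?_⟩
            loopless := ⟨?_⟩ }, ?_⟩
  · rintro u v ⟨i, a, b, h1, h2, h3⟩
    exact ⟨i, b, a, h2, h1, h3.symm⟩
  · rintro u ⟨i, a, b, h1, h2, h3⟩
    have : a = b := (enum (V i)).injective (h1.trans h2.symm)
    exact h3.ne this
  · intro i m φ hφ
    have h1 : ∀ a, ∃ x, enum (V i) x = φ a := fun a => exists_enum (V i) (φ a) (by simp [hV, hφ])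
    choose ψ hψ using h1
    have hinj : Function.Injective ψ := by
      intro a b hab
      apply φ.injective
      rw [← hψ a, ← hψ b, hab]
    have h2 := hΦ i m (V i).card ⟨ψ, hinj⟩ (H i) (hH i)
    refine Set.mem_of_eq_of_mem ?_ h2
    ext a b
    simp only [SimpleGraph.comap_adj, Function.Embedding.coeFn_mk]
    constructor
    · rintro ⟨i', x, y, hx, hy, hxy⟩
      have hi : i' = i := by
        have := enum_mem (V i') x
        simp only [hV, mem_filter, mem_univ, true_and] at this
        rw [hx, hφ] at this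
        exact this.symm
      subst hi
      have e1 : x = ψ a := (enum (V i')).injective (hx.trans (hψ a).symm)
      have e2 : y = ψ b := (enum (V i')).injective (hy.trans (hψ b).symm)
      rw [← e1, ← e2]
      exact hxy
    · intro h
      exact ⟨i, ψ a, ψ b, hψ a, hψ b, h⟩

open Classical in
theorem two_pow_le_card_parts (Φ : Fin r → (m : ℕ) → Set (SimpleGraph (Fin m)))
    (hΦ : ∀ i, Hereditary (Φ i)) (hne : ∀ i m, (Φ i m).Nonempty) (f : Fin n → Fin r) :
    (2 : ℝ) ^ (crs f).card ≤
      (univ.filter (fun G : SimpleGraph (Fin n) => Parts Φ f G)).card := by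
  obtain ⟨G0, hG0⟩ := exists_parts Φ hΦ hne f
  have h1 := card_agree f G0
  have h2 : (univ.filter (fun G => Agree f G0 G)) ⊆
      (univ.filter (fun G : SimpleGraph (Fin n) => Parts Φ f G)) := by
    intro G hG
    simp only [mem_filter, mem_univ, true_and] at hG ⊢
    exact parts_of_agree hG hG0
  have h3 := Finset.card_le_card h2
  rw [h1] at h3
  exact_mod_cast h3

open Classical in
/-- A property of almost all graphs which agree with a given one inside the parts of a balanced
partition holds for almost all graphs of the partition. -/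
theorem bad_parts (Φ : Fin r → (m : ℕ) → Set (SimpleGraph (Fin m))) (f : Fin n → Fin r)
    (P : SimpleGraph (Fin n) → Prop) (ε : ℝ)
    (h : ∀ G0, ((univ.filter (fun G => Agree f G0 G ∧ ¬ P G)).card : ℝ) ≤
      ε * (univ.filter (fun G => Agree f G0 G)).card) :
    ((univ.filter (fun G => Parts Φ f G ∧ ¬ P G)).card : ℝ) ≤
      ε * (univ.filter (fun G : SimpleGraph (Fin n) => Parts Φ f G)).card := by
  have h1 := sum_parts_le Φ f (fun G => if ¬ P G then (1 : ℝ) else 0) ε ?_
  · rw [← Finset.sum_filter, Finset.filter_filter] at h1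
    simpa using h1
  · intro G0 _
    rw [← Finset.sum_filter, Finset.filter_filter]
    have h2 := h G0
    rw [card_agree] at h2
    push_cast at h2
    simpa using h2

end Pool.Agent.Q6.HP
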