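import Pool.Agent.Q6.HP.Main

/-!
# Examples of hereditary classes with few one vertex extensions
-/

set_option autoImplicit false
set_option maxHeartbeats 400000

namespace Pool.Agent.Q6.HP

open Finset Filter

/-- The graphs with all degrees at most `D`. -/
def SmallDeg (D : ℕ) (m : ℕ) : Set (SimpleGraph (Fin m)) :=
  {G | ∀ v, (G.neighborSet v).ncard ≤ D}

/-- The disjoint unions of cliques. -/
def Clusters (m : ℕ) : Set (SimpleGraph (Fin m)) :=
  {G | ∀ a b c, a ≠ c → G.Adj a b → G.Adj b c → G.Adj a c}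

/-- The complements of the members of a class. -/
def Co (Φ : (m : ℕ) → Set (SimpleGraph (Fin m))) (m : ℕ) : Set (SimpleGraph (Fin m)) :=
  {G | Gᶜ ∈ Φ m}

theorem comap_compl {m n : ℕ} (φ : Fin m ↪ Fin n) (G : SimpleGraph (Fin n)) :
    (G.comap φ)ᶜ = Gᶜ.comap φ := by
  ext a b
  simp [SimpleGraph.compl_adj]

theorem subexp_poly (D : ℕ) : Subexp (fun m => (m + 1) ^ D) := by
  intro δ hδ
  have h1 : Tendsto (fun n : ℕ => (n : ℝ) ^ D / (1 + δ) ^ n) atTop (nhds 0) :=
    tendsto_pow_const_div_const_pow_of_one_lt D (by linarith)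
  have h2 : ∀ᶠ n : ℕ in atTop, (n : ℝ) ^ D / (1 + δ) ^ n < 1 / (1 + δ) :=
    h1.eventually (gt_mem_nhds (by positivity))
  have h3 := (tendsto_add_atTop_nat 1).eventually h2
  filter_upwards [h3] with n hn
  have h4 : (0 : ℝ) < (1 + δ) ^ (n + 1) := by positivity
  rw [div_lt_div_iff₀ h4 (by positivity)] at hn
  push_cast at hn ⊢
  have h5 : (1 + δ) ^ (n + 1) = (1 + δ) ^ n * (1 + δ) := pow_succ _ _
  rw [h5, one_mul] at hn
  exact (lt_of_mul_lt_mul_right hn (by positivity)).le

theorem subexp_succ : Subexp (fun m => m + 1) := by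
  have h := subexp_poly 1
  simpa using h

/-- A graph on one more vertex is determined by its restriction and the last neighbourhood. -/
theorem eq_of_last {m : ℕ} {G G' : SimpleGraph (Fin (m + 1))}
    (h : G.comap Fin.castSucc = G'.comap Fin.castSucc)
    (h' : ∀ a : Fin m, G.Adj (Fin.last m) a.castSucc ↔ G'.Adj (Fin.last m) a.castSucc) :
    G = G' := by
  ext x y
  induction x using Fin.lastCases with
  | last =>
    induction y using Fin.lastCases with
    | last => simp
    | cast b => exact h' b
  | cast a =>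
    induction y using Fin.lastCases with
    | last => rw [SimpleGraph.adj_comm, h' a, SimpleGraph.adj_comm]
    | cast b =>
      have h2 := congrArg (fun H : SimpleGraph (Fin m) => H.Adj a b) h
      simpa using h2

theorem ncard_le_card {α β : Type} [Finite α] [Fintype β] (s : Set α) (R : α → β → Prop)
    (h1 : ∀ a ∈ s, ∃ b, R a b) (h2 : ∀ a ∈ s, ∀ a' ∈ s, ∀ b, R a b → R a' b → a = a') :
    s.ncard ≤ Fintype.card β := by
  classical
  have h3 : ∀ a : s, ∃ b, R a b := fun a => h1 a a.2
  choose g hg using h3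
  have h4 : Function.Injective g := by
    intro a a' he
    exact Subtype.ext (h2 a a.2 a' a'.2 (g a) (hg a) (he ▸ hg a'))
  have h5 := Nat.card_le_card_of_injective g h4
  rw [Nat.card_coe_set_eq, Nat.card_eq_fintype_card (α := β)] at h5
  exact h5

theorem fewExt_clusters : FewExt (fun m => m + 1) Clusters := by
  classical
  intro m H
  have h1 := ncard_le_card (β := Option (Fin m))
    {G : SimpleGraph (Fin (m + 1)) | G ∈ Clusters (m + 1) ∧ G.comap Fin.castSucc = H}
    (fun G o => (∀ a : Fin m, o = some a → G.Adj (Fin.last m) a.castSucc) ∧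
      (o = none → ∀ a : Fin m, ¬ G.Adj (Fin.last m) a.castSucc))
    (by
      intro G _
      by_cases h : ∃ a : Fin m, G.Adj (Fin.last m) a.castSucc
      · obtain ⟨a, ha⟩ := h
        refine ⟨some a, ?_, ?_⟩
        · intro b hb
          obtain rfl := Option.some.inj hb
          exact ha
        · intro hb
          exact absurd hb (by simp)
      · push Not at h
        refine ⟨none, ?_, fun _ => h⟩
        intro a ha
        exact absurd ha (by simp))
    (by
      rintro G ⟨hG, hGH⟩ G' ⟨hG', hGH'⟩ o ⟨h1, h2⟩ ⟨h3, h4⟩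
      refine eq_of_last (hGH.trans hGH'.symm) ?_
      cases o with
      | none => exact fun a => iff_of_false (h2 rfl a) (h4 rfl a)
      | some b =>
        have key : ∀ K K' : SimpleGraph (Fin (m + 1)), K ∈ Clusters (m + 1) →
            K' ∈ Clusters (m + 1) → K.comap Fin.castSucc = H → K'.comap Fin.castSucc = H →
            K.Adj (Fin.last m) b.castSucc → K'.Adj (Fin.last m) b.castSucc →
            ∀ a : Fin m, K.Adj (Fin.last m) a.castSucc → K'.Adj (Fin.last m) a.castSucc := by
          intro K K' hK hK' hc hc' hb hb' a ha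
          by_cases hab : a = b
          · rw [hab]
            exact hb'
          · have h5 : K.Adj a.castSucc b.castSucc :=
              hK _ _ _ (fun h => hab (Fin.castSucc_injective _ h)) ha.symm hb
            have h6 : H.Adj a b := by
              rw [← hc]
              exact h5
            have h7 : K'.Adj a.castSucc b.castSucc := by
              rw [← hc'] at h6
              exact h6
            exact hK' _ _ _ (Fin.castSucc_lt_last a).ne' hb' h7.symm
        exact fun a => ⟨key G G' hG hG' hGH hGH' (h1 b rfl) (h3 b rfl) a,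
          key G' G hG' hG hGH' hGH (h3 b rfl) (h1 b rfl) a⟩)
  simpa using h1

theorem fewExt_smallDeg (D : ℕ) : FewExt (fun m => (m + 1) ^ D) (SmallDeg D) := by
  classical
  intro m H
  have h1 := ncard_le_card (β := Fin D → Option (Fin m))
    {G : SimpleGraph (Fin (m + 1)) | G ∈ SmallDeg D (m + 1) ∧ G.comap Fin.castSucc = H}
    (fun G g => ∀ a : Fin m, G.Adj (Fin.last m) a.castSucc ↔ ∃ i, g i = some a)
    (by
      rintro G ⟨hG, -⟩
      set S : Finset (Fin m) := univ.filter (fun a => G.Adj (Fin.last m) a.castSucc) with hS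
      have hc : S.card ≤ D := by
        have h2 : S.card = ((S.image Fin.castSucc : Finset (Fin (m + 1))) :
            Set (Fin (m + 1))).ncard := by
          rw [Set.ncard_coe_finset, Finset.card_image_of_injective _ (Fin.castSucc_injective m)]
        rw [h2]
        refine le_trans (Set.ncard_le_ncard ?_ (Set.toFinite _)) (hG (Fin.last m))
        intro x hx
        simp only [coe_image, Set.mem_image, mem_coe, hS, mem_filter, mem_univ, true_and] at hx
        obtain ⟨a, ha, rfl⟩ := hx
        exact ha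
      refine ⟨fun i => S.toList[(i : ℕ)]?, fun a => ?_⟩
      have h3 : G.Adj (Fin.last m) a.castSucc ↔ a ∈ S.toList := by
        rw [Finset.mem_toList, hS]
        simp
      rw [h3, List.mem_iff_getElem?]
      constructor
      · rintro ⟨i, hi⟩
        have h4 : i < S.toList.length := by
          by_contra hcon
          rw [List.getElem?_eq_none (not_lt.1 hcon)] at hi
          exact absurd hi (by simp)
        rw [Finset.length_toList] at h4
        exact ⟨⟨i, lt_of_lt_of_le h4 hc⟩, hi⟩
      · rintro ⟨i, hi⟩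
        exact ⟨i, hi⟩)
    (by
      rintro G ⟨-, hGH⟩ G' ⟨-, hGH'⟩ g h2 h3
      exact eq_of_last (hGH.trans hGH'.symm) (fun a => (h2 a).trans (h3 a).symm))
  simpa using h1

theorem fewExt_co {e : ℕ → ℕ} {Φ : (m : ℕ) → Set (SimpleGraph (Fin m))} (h : FewExt e Φ) :
    FewExt e (Co Φ) := by
  classical
  intro m H
  refine le_trans ?_ (h m Hᶜ)
  apply Set.ncard_le_ncard_of_injOn (fun G => Gᶜ)
  · rintro G ⟨hG, hGH⟩
    refine ⟨hG, ?_⟩
    have h2 := comap_compl Fin.castSuccEmb G
    have h3 : (G.comap Fin.castSuccEmb) = H := hGH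
    rw [h3] at h2
    exact h2.symm
  · intro G _ G' _ he
    exact compl_injective he

theorem hereditary_co {Φ : (m : ℕ) → Set (SimpleGraph (Fin m))} (h : Hereditary Φ) :
    Hereditary (Co Φ) := by
  intro m n φ G hG
  have h2 := h m n φ Gᶜ hG
  rw [← comap_compl] at h2
  exact h2

theorem hereditary_clusters : Hereditary Clusters := by
  intro m n φ G hG a b c hac hab hbc
  exact hG _ _ _ (fun h => hac (φ.injective h)) hab hbc

theorem hereditary_smallDeg (D : ℕ) : Hereditary (SmallDeg D) := by
  intro m n φ G hG v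
  refine le_trans ?_ (hG (φ v))
  apply Set.ncard_le_ncard_of_injOn φ
  · intro w hw
    exact hw
  · exact φ.injective.injOn

theorem nonempty_clusters (m : ℕ) : (Clusters m).Nonempty :=
  ⟨⊥, fun a b c _ h => absurd h (by simp)⟩

theorem nonempty_smallDeg (D m : ℕ) : (SmallDeg D m).Nonempty := by
  refine ⟨⊥, fun v => ?_⟩
  have : (⊥ : SimpleGraph (Fin m)).neighborSet v = ∅ := by
    ext w
    simp
  rw [this]
  simp

theorem nonempty_co {Φ : (m : ℕ) → Set (SimpleGraph (Fin m))} (h : ∀ m, (Φ m).Nonempty) (m : ℕ) :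
    (Co Φ m).Nonempty := by
  obtain ⟨G, hG⟩ := h m
  exact ⟨Gᶜ, by
    show Gᶜᶜ ∈ Φ m
    rwa [compl_compl]⟩

/-- the embedding given by two different vertices -/
theorem exists_emb2 {n : ℕ} (a b : Fin n) (h : a ≠ b) : ∃ φ : Fin 2 ↪ Fin n, φ 0 = a ∧ φ 1 = b :=
  ⟨⟨![a, b], by
    intro i j hij
    fin_cases i <;> fin_cases j <;> simp_all⟩, rfl, rfl⟩

theorem exists_emb3 {n : ℕ} (a b c : Fin n) (hab : a ≠ b) (hbc : b ≠ c) (hac : a ≠ c) :
    ∃ φ : Fin 3 ↪ Fin n, φ 0 = a ∧ φ 1 = b ∧ φ 2 = c :=
  ⟨⟨![a, b, c], by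
    intro i j hij
    fin_cases i <;> fin_cases j <;> simp_all⟩, rfl, rfl, rfl⟩

end Pool.Agent.Q6.HP
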