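import Pool.Agent.Q6.HP.Params

/-!
# Almost all graphs with a partition into parts from hereditary classes
-/

set_option autoImplicit false
set_option maxHeartbeats 400000

namespace Pool.Agent.Q6.HP

open Finset Filter Pool.Agent.Q129.AAC

theorem nbr_diff' {n r : ℕ} (f : Fin n → Fin r) (G0 : SimpleGraph (Fin n)) (v : Fin n) (M : ℕ)
    (hM : ∀ j, M ≤ (univ.filter (fun w => f w = j)).card) :
    ((FI f G0).neighborSet v).ncard + (r - 1) * M ≤ ((BI f G0).neighborSet v).ncard := by
  classical
  have h1 : (r - 1) * M ≤ (univ.filter (fun w => f w ≠ f v)).card := by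
    have e1 : (univ.filter (fun w => f w ≠ f v)).card =
        ∑ j ∈ univ.erase (f v), (univ.filter (fun w => f w = j)).card := by
      rw [Finset.card_eq_sum_card_fiberwise (f := f) (t := univ.erase (f v))]
      · refine Finset.sum_congr rfl (fun j hj => ?_)
        congr 1
        ext w
        simp only [mem_filter, mem_univ, true_and, and_iff_right_iff_imp]
        rintro rfl
        exact (Finset.mem_erase.1 hj).1
      · intro w hw
        have hw' : f w ≠ f v := by simpa using hw
        rw [mem_coe, Finset.mem_erase]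
        exact ⟨hw', mem_univ _⟩
    rw [e1]
    have e2 : ∑ _j ∈ (univ : Finset (Fin r)).erase (f v), M ≤
        ∑ j ∈ univ.erase (f v), (univ.filter (fun w => f w = j)).card :=
      Finset.sum_le_sum (fun j _ => hM j)
    rw [Finset.sum_const, Finset.card_erase_of_mem (mem_univ _), Finset.card_univ,
      Fintype.card_fin, smul_eq_mul] at e2
    exact e2
  refine (Nat.add_le_add_left h1 _).trans ?_
  rw [← Set.ncard_coe_finset, ← Set.ncard_union_eq _ (Set.toFinite _) (Set.toFinite _)]
  · apply Set.ncard_le_ncard _ (Set.toFinite _)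
    rintro w (hw | hw)
    · exact FI_le_BI f G0 hw
    · have hw' : f w ≠ f v := by simpa using hw
      exact ⟨fun e => hw' (by rw [e]), fun e => absurd e.symm hw'⟩
  · rw [Set.disjoint_left]
    intro w hw hw'
    have h1 : f w ≠ f v := by simpa using hw'
    exact h1 hw.1.symm

/-- A property of almost all graphs between any two graphs with large uncertainty holds for almost
all graphs whose vertices can be partitioned into `r` parts which induce members of given
hereditary classes with few one vertex extensions. -/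
theorem almost_all (P : ∀ n : ℕ, SimpleGraph (Fin n) → Prop)
    (hP : ∀ c ε : ℝ, 0 < c → 0 < ε → ∃ N : ℕ, ∀ n : ℕ, N ≤ n → ∀ F B : SimpleGraph (Fin n),
      F ≤ B →
      (∀ v, ((F.neighborSet v).ncard : ℝ) + c * n ≤ (B.neighborSet v).ncard ∨
        ∃ u, ((F.neighborSet v).ncard : ℝ) + (B.neighborSet v).ncard + c * n ≤
          (F.neighborSet u).ncard + (B.neighborSet u).ncard) →
      ({G : SimpleGraph (Fin n) | F ≤ G ∧ G ≤ B ∧ ¬ P n G}.ncard : ℝ) ≤
        ε * {G : SimpleGraph (Fin n) | F ≤ G ∧ G ≤ B}.ncard)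
    (e : ℕ → ℕ) (he : Subexp e) (r : ℕ) (hr : 2 ≤ r) (δ : ℝ) (hδ : 0 < δ) :
    ∃ N : ℕ, ∀ n : ℕ, N ≤ n → ∀ Φ : Fin r → (m : ℕ) → Set (SimpleGraph (Fin m)),
      (∀ i, Hereditary (Φ i)) → (∀ i m, (Φ i m).Nonempty) → (∀ i, FewExt e (Φ i)) →
      ({G : SimpleGraph (Fin n) | (∃ f : Fin n → Fin r, Parts Φ f G) ∧ ¬ P n G}.ncard : ℝ) ≤
        δ * {G : SimpleGraph (Fin n) | ∃ f : Fin n → Fin r, Parts Φ f G}.ncard := by
  classical
  set D : ℝ := 1 + 3 * (r : ℝ) ^ r with hD
  have hD0 : 0 < D := by positivity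
  set ε : ℝ := δ / (2 * D) with hε
  have hεpos : 0 < ε := by positivity
  obtain ⟨N1, hN1⟩ := hP (1 / 8) ε (by norm_num) hεpos
  obtain ⟨N2, hN2⟩ := params e he r hr ε hεpos
  refine ⟨max N1 N2, fun n hn Φ hΦ hne hext => ?_⟩
  have h1 := hN1 n ((le_max_left _ _).trans hn)
  obtain ⟨E, x, hE, hx, heE, hex, hA, hB, hunb, hres, hdeg, hn1⟩ :=
    hN2 n ((le_max_right _ _).trans hn)
  set m := n / (2 * r ^ 2) with hm
  have hfin : ∀ (Q : SimpleGraph (Fin n) → Prop) [DecidablePred Q],
      {G : SimpleGraph (Fin n) | Q G}.ncard =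
        (univ.filter (fun G : SimpleGraph (Fin n) => Q G)).card := by
    intro Q _
    rw [← Set.ncard_coe_finset]
    congr 1
    ext G
    simp
  have hrn : (0 : ℝ) < (r : ℝ) ^ n := by
    have : (0 : ℝ) < r := by
      have : 0 < r := by omega
      exact_mod_cast this
    positivity
  have key := second_moment (fun (f : Fin n → Fin r) (G : SimpleGraph (Fin n)) => Parts Φ f G)
    (P n) (univ.filter (fun f => Bal m f)) D ε hεpos.le hD0.le ?_ ?_ ?_
  · rw [hfin, hfin]
    refine key.trans (le_of_eq ?_)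
    rw [hε]
    field_simp
  · intro f hf
    have hf' : Bal m f := by simpa using hf
    refine (total Φ hΦ e hext E hE heE x hx m hex f hf').trans ?_
    apply mul_le_mul_of_nonneg_left _ (Nat.cast_nonneg _)
    rw [hD]
    have h2 : (0 : ℝ) ≤ (r : ℝ) ^ r := by positivity
    nlinarith
  · intro f hf
    have hf' : Bal m f := by simpa using hf
    apply bad_parts
    intro G0
    have e1 : {G : SimpleGraph (Fin n) | FI f G0 ≤ G ∧ G ≤ BI f G0 ∧ ¬ P n G} =
        {G | Agree f G0 G ∧ ¬ P n G} := by
      ext G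
      simp only [Set.mem_ofPred_eq, agree_iff, and_assoc]
    have e2 : {G : SimpleGraph (Fin n) | FI f G0 ≤ G ∧ G ≤ BI f G0} = {G | Agree f G0 G} := by
      ext G
      exact (agree_iff f G0 G).symm
    have h2 := h1 (FI f G0) (BI f G0) (FI_le_BI f G0) (fun v => ?_)
    · rw [e1, e2, hfin, hfin] at h2
      exact h2
    · left
      have h10 := nbr_diff' f G0 v (r * m) hf'
      have h11 : (((FI f G0).neighborSet v).ncard : ℝ) +
          (((r - 1) * (r * m) : ℕ) : ℝ) ≤ (((BI f G0).neighborSet v).ncard : ℝ) := by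
        exact_mod_cast h10
      linarith
  · intro s hs
    have h2 : ∀ f ∈ s,
        ((univ.filter (fun G : SimpleGraph (Fin n) => Parts Φ f G)).card : ℝ) ≤
          ε * 2 ^ (crs (res (by omega : 0 < r) : Fin n → Fin r)).card / (r : ℝ) ^ n := by
      intro f hf
      have hf' : ¬ Bal m f := by simpa using hs f hf
      rw [le_div_iff₀ hrn]
      have h3 := card_parts_le Φ hΦ e hext E hE heE f
      have h4 := hunb f hf'
      have h5 := mul_le_mul_of_nonneg_right h3 hrn.le
      linarith
    refine (Finset.sum_le_sum h2).trans ?_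
    rw [Finset.sum_const, nsmul_eq_mul]
    have h5 : (s.card : ℝ) ≤ (r : ℝ) ^ n := by
      have h5 := Finset.card_le_univ s
      rw [Fintype.card_fun, Fintype.card_fin, Fintype.card_fin] at h5
      exact_mod_cast h5
    have h6 : (0 : ℝ) ≤
        ε * 2 ^ (crs (res (by omega : 0 < r) : Fin n → Fin r)).card / (r : ℝ) ^ n := by
      positivity
    refine (mul_le_mul_of_nonneg_right h5 h6).trans ?_
    rw [mul_div_cancel₀ _ hrn.ne']
    apply mul_le_mul_of_nonneg_left _ hεpos.le
    refine (two_pow_le_card_parts Φ hΦ hne (res (by omega : 0 < r))).trans ?_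
    exact Finset.single_le_sum (f := fun f : Fin n → Fin r =>
      ((univ.filter (fun G : SimpleGraph (Fin n) => Parts Φ f G)).card : ℝ))
      (fun _ _ => Nat.cast_nonneg _) (by simp [hres])

end Pool.Agent.Q6.HP
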