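import Pool.Agent.Q6.HP.Class
import Pool.Agent.Q129.AAC.Main

/-!
# The parameters for large `n`
-/

set_option autoImplicit false
set_option maxHeartbeats 400000

namespace Pool.Agent.Q6.HP

open Finset Filter Pool.Agent.Q129.AAC

/-- `e` grows subexponentially. -/
def Subexp (e : ℕ → ℕ) : Prop :=
  ∀ δ : ℝ, 0 < δ → ∀ᶠ m : ℕ in atTop, (e m : ℝ) ≤ (1 + δ) ^ m

theorem exists_const (e : ℕ → ℕ) (he : Subexp e) (δ : ℝ) (hδ : 0 < δ) :
    ∃ C : ℝ, 1 ≤ C ∧ ∀ k, (e k : ℝ) ≤ C * (1 + δ) ^ k := by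
  obtain ⟨M, hM⟩ := eventually_atTop.1 (he δ hδ)
  refine ⟨1 + ∑ k ∈ range M, (e k : ℝ), ?_, fun k => ?_⟩
  · have : (0 : ℝ) ≤ ∑ k ∈ range M, (e k : ℝ) := Finset.sum_nonneg (fun _ _ => Nat.cast_nonneg _)
    linarith
  · have h0 : (0 : ℝ) ≤ ∑ k ∈ range M, (e k : ℝ) := Finset.sum_nonneg (fun _ _ => Nat.cast_nonneg _)
    have h1 : (1 : ℝ) ≤ (1 + δ) ^ k := one_le_pow₀ (by linarith)
    rcases lt_or_ge k M with h | h
    · have h2 : (e k : ℝ) ≤ ∑ k ∈ range M, (e k : ℝ) :=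
        Finset.single_le_sum (f := fun k => (e k : ℝ)) (fun _ _ => Nat.cast_nonneg _)
          (Finset.mem_range.2 h)
      nlinarith
    · have h2 := hM k h
      nlinarith

/-- A partition which is not balanced has few pairs between the parts. -/
theorem crs_gap {n r : ℕ} (hr : 0 < r) (f : Fin n → Fin r)
    (hf : ¬ Bal (n / (2 * r ^ 2)) f) :
    (n : ℝ) ^ 2 / (4 * r ^ 2) - n ≤
      2 * (((crs (res hr : Fin n → Fin r)).card : ℝ) - (crs f).card) := by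
  have hr0 : (0 : ℝ) < r := by exact_mod_cast hr
  have hmu : ((n / (2 * r ^ 2) : ℕ) : ℝ) ≤ n / (2 * r ^ 2) := by
    have := Nat.cast_div_le (α := ℝ) (m := n) (n := 2 * r ^ 2)
    push_cast at this
    exact this
  rw [Bal] at hf
  push Not at hf
  obtain ⟨i, hi⟩ := hf
  have hi' : ((univ.filter (fun v => f v = i)).card : ℝ) ≤ n / (2 * r) := by
    have h1 : ((univ.filter (fun v => f v = i)).card : ℝ) ≤
        ((r * (n / (2 * r ^ 2)) : ℕ) : ℝ) := by
      exact_mod_cast hi.le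
    refine h1.trans ?_
    push_cast
    calc (r : ℝ) * ((n / (2 * r ^ 2) : ℕ) : ℝ) ≤ r * (n / (2 * r ^ 2)) :=
          mul_le_mul_of_nonneg_left hmu hr0.le
      _ = n / (2 * r) := by
          field_simp
  have h1 := crs_unbal f i hi'
  have h2 := crs_res (n := n) hr
  linarith

theorem l_eighth (r m n : ℕ) (hr : 2 ≤ r) (hml : (n : ℝ) / (4 * r ^ 2) ≤ (m : ℝ)) :
    (n : ℝ) / 8 ≤ (((r - 1) * (r * m) : ℕ) : ℝ) := by
  have hr0 : (0 : ℝ) < r := by
    have : 0 < r := by omega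
    exact_mod_cast this
  have hr2 : (2 : ℝ) ≤ r := by exact_mod_cast hr
  have hnR : (0 : ℝ) ≤ n := Nat.cast_nonneg _
  have e1 : (((r - 1 : ℕ)) : ℝ) = (r : ℝ) - 1 := by
    rw [Nat.cast_sub (by omega)]
    simp
  push_cast
  rw [e1]
  have h1 : (n : ℝ) / (4 * r) ≤ r * m := by
    calc (n : ℝ) / (4 * r) = r * (n / (4 * r ^ 2)) := by
          field_simp
      _ ≤ r * m := mul_le_mul_of_nonneg_left hml hr0.le
  calc (n : ℝ) / 8 ≤ ((r : ℝ) - 1) * (n / (4 * r)) := by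
        rw [div_le_iff₀ (by norm_num)]
        have : ((r : ℝ) - 1) * (n / (4 * r)) * 8 = n * (2 * (r - 1) / r) := by
          field_simp
          ring
        rw [this]
        have h2 : (1 : ℝ) ≤ 2 * (r - 1) / r := by
          rw [le_div_iff₀ hr0]
          linarith
        nlinarith
    _ ≤ ((r : ℝ) - 1) * (r * m) := mul_le_mul_of_nonneg_left h1 (by linarith)

theorem l_three (n : ℕ) (y : ℝ) (hy : 0 ≤ y) (h : n * y ≤ 1) : (1 + y) ^ n ≤ 3 := by
  calc (1 + y) ^ n ≤ (Real.exp y) ^ n := by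
        apply pow_le_pow_left₀ (by positivity)
        rw [add_comm]
        exact Real.add_one_le_exp _
    _ = Real.exp (n * y) := by rw [← Real.exp_nat_mul]
    _ ≤ Real.exp 1 := Real.exp_le_exp.2 h
    _ ≤ 3 := by
        have := Real.exp_one_lt_d9
        linarith

/-- a partition which is not balanced has few graphs -/
theorem l_unb {n r : ℕ} (hrpos : 0 < r) (hr1 : 1 ≤ r) (f : Fin n → Fin r)
    (hf : ¬ Bal (n / (2 * r ^ 2)) f) (X ε κ κ' : ℝ) (hX : 0 < X) (hε : 0 < ε)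
    (hn1 : 1 ≤ n) (hn3 : 8 * r ^ 2 ≤ n)
    (hlogX : Real.log X ≤ κ * n + (n : ℝ) ^ 2 / (128 * r ^ 4))
    (hκ' : κ' = κ + 1 + |Real.log ε|)
    (hbig : κ' * n ≤ (n : ℝ) ^ 2 / (128 * r ^ 4)) :
    X * 2 ^ (crs f).card ≤ ε * 2 ^ (crs (res hrpos : Fin n → Fin r)).card := by
  have hr0 : (0 : ℝ) < r := by exact_mod_cast hrpos
  have hr1R : (1 : ℝ) ≤ r := by exact_mod_cast hr1
  have hn1R : (1 : ℝ) ≤ n := by exact_mod_cast hn1
  have hr2 : (1 : ℝ) ≤ (r : ℝ) ^ 2 := one_le_pow₀ hr1R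
  have hr24 : (r : ℝ) ^ 2 ≤ (r : ℝ) ^ 4 := pow_le_pow_right₀ hr1R (by norm_num)
  have hlog2 : (1 / 2 : ℝ) ≤ Real.log 2 := by
    have := Real.log_two_gt_d9
    linarith
  have h1 := crs_gap hrpos f hf
  set K : ℝ := ((crs (res hrpos : Fin n → Fin r)).card : ℝ) with hK
  set L : ℝ := ((crs f).card : ℝ) with hL
  have h2 : Real.log (X * 2 ^ (crs f).card) ≤
      Real.log (ε * 2 ^ (crs (res hrpos : Fin n → Fin r)).card) := by
    rw [Real.log_mul hX.ne' (by positivity), Real.log_pow,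
      Real.log_mul hε.ne' (by positivity), Real.log_pow]
    have h3 : (n : ℝ) ^ 2 / (16 * r ^ 2) - n / 2 ≤ (K - L) * Real.log 2 := by
      have h4 : (n : ℝ) ^ 2 / (8 * r ^ 2) - n / 2 ≤ K - L := by
        have h5 : (n : ℝ) ^ 2 / (4 * r ^ 2) = 2 * ((n : ℝ) ^ 2 / (8 * r ^ 2)) := by
          field_simp
          norm_num
        linarith
      have h5 : (n : ℝ) ≤ (n : ℝ) ^ 2 / (8 * r ^ 2) := by
        rw [le_div_iff₀ (by positivity)]
        have : (8 * (r : ℝ) ^ 2) ≤ n := by exact_mod_cast hn3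
        nlinarith
      have h6 : (n : ℝ) ^ 2 / (8 * r ^ 2) = 2 * ((n : ℝ) ^ 2 / (16 * r ^ 2)) := by
        field_simp
        norm_num
      have h7 : 0 ≤ K - L := by linarith
      have h8 := mul_le_mul_of_nonneg_left hlog2 h7
      linarith
    have h9 : - Real.log ε ≤ |Real.log ε| := neg_le_abs _
    have h10 : κ * n + n + |Real.log ε| ≤ κ' * n := by
      rw [hκ']
      have : |Real.log ε| ≤ |Real.log ε| * n := le_mul_of_one_le_right (abs_nonneg _) hn1R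
      linarith
    have h11 : (n : ℝ) ^ 2 / (128 * r ^ 4) + (n : ℝ) ^ 2 / (128 * r ^ 4) ≤
        (n : ℝ) ^ 2 / (16 * r ^ 2) := by
      rw [← two_mul, ← mul_div_assoc, div_le_div_iff₀ (by positivity) (by positivity)]
      have h13 := mul_le_mul_of_nonneg_left hr24 (sq_nonneg (n : ℝ))
      have h14 : 0 ≤ (n : ℝ) ^ 2 * r ^ 2 := by positivity
      linarith
    have h12 : (K - L) * Real.log 2 = K * Real.log 2 - L * Real.log 2 := by ring
    linarith
  exact (Real.log_le_log_iff (by positivity) (by positivity)).1 h2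

theorem params (e : ℕ → ℕ) (he : Subexp e) (r : ℕ) (hr : 2 ≤ r) (ε : ℝ) (hε : 0 < ε) :
    ∃ N : ℕ, ∀ n : ℕ, N ≤ n → ∃ E x : ℝ, 1 ≤ E ∧ 0 ≤ x ∧ (∀ k ≤ n, (e k : ℝ) ≤ E) ∧
      (∀ k, n / (2 * r ^ 2) ≤ k → k ≤ n → (e k : ℝ) ≤ x * 2 ^ k) ∧
      (r : ℝ) ^ n * (E ^ n * (1 / 2) ^ ((n / (2 * r ^ 2)) * (n / (2 * r ^ 2)))) ≤ 1 ∧
      (1 + (r : ℝ) * x) ^ n ≤ 3 ∧
      (∀ f : Fin n → Fin r, ¬ Bal (n / (2 * r ^ 2)) f →
        (r : ℝ) ^ n * (E ^ n * 2 ^ (crs f).card) ≤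
          ε * 2 ^ (crs (res (by omega : 0 < r) : Fin n → Fin r)).card) ∧
      Bal (n / (2 * r ^ 2)) (res (by omega : 0 < r) : Fin n → Fin r) ∧
      (n : ℝ) / 8 ≤ (((r - 1) * (r * (n / (2 * r ^ 2))) : ℕ) : ℝ) ∧ 1 ≤ n := by
  have hrpos : 0 < r := by omega
  have hr0 : (0 : ℝ) < r := by exact_mod_cast hrpos
  have hr2 : (2 : ℝ) ≤ r := by exact_mod_cast hr
  have hr4 : (16 : ℝ) ≤ (r : ℝ) ^ 4 := by
    have := pow_le_pow_left₀ (by norm_num : (0 : ℝ) ≤ 2) hr2 4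
    norm_num at this
    exact this
  have hr22 : (4 : ℝ) ≤ (r : ℝ) ^ 2 := by nlinarith
  have hr24 : (r : ℝ) ^ 2 ≤ (r : ℝ) ^ 4 := by nlinarith [sq_nonneg ((r : ℝ) ^ 2 - 1)]
  set δ : ℝ := 1 / (128 * (r : ℝ) ^ 4) with hδd
  have hδ : 0 < δ := by positivity
  have hδ1 : δ ≤ 1 / 2 := by
    rw [hδd, div_le_div_iff₀ (by positivity) (by norm_num)]
    linarith
  obtain ⟨C, hC1, hC⟩ := exists_const e he δ hδ
  have hC0 : 0 < C := by linarith
  set κ : ℝ := Real.log r + Real.log C with hκ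
  have hκ0 : 0 ≤ κ := add_nonneg (Real.log_nonneg (by linarith)) (Real.log_nonneg hC1)
  set κ' : ℝ := κ + 1 + |Real.log ε| with hκ'
  have hκ'0 : 0 ≤ κ' := by positivity
  -- the third condition
  have ht : Tendsto (fun m : ℕ => 2 * (r : ℝ) ^ 3 * C * (2 * ((m : ℝ) ^ 1 * (3 / 4) ^ m))) atTop
      (nhds (2 * (r : ℝ) ^ 3 * C * (2 * 0))) :=
    ((tendsto_pow_const_mul_const_pow_of_abs_lt_one 1 (by norm_num [abs_of_pos])).const_mul
      _).const_mul _
  rw [mul_zero, mul_zero] at ht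
  obtain ⟨M, hM⟩ := eventually_atTop.1 ((ht.eventually (gt_mem_nhds (by norm_num : (0 : ℝ) < 1))))
  obtain ⟨N1, hN1⟩ := exists_nat_ge (128 * (r : ℝ) ^ 4 * κ')
  refine ⟨max N1 (max (2 * r ^ 2 * (M + 1)) (8 * r ^ 2)), fun n hn => ?_⟩
  have hn1 : N1 ≤ n := (le_max_left _ _).trans hn
  have hn2 : 2 * r ^ 2 * (M + 1) ≤ n := (le_max_left _ _).trans ((le_max_right _ _).trans hn)
  have hn3 : 8 * r ^ 2 ≤ n := (le_max_right _ _).trans ((le_max_right _ _).trans hn)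
  have hrr : 0 < r ^ 2 := by positivity
  have hn0 : 1 ≤ n := by omega
  have hnR : (0 : ℝ) < n := by exact_mod_cast hn0
  have hn1R : (1 : ℝ) ≤ n := by exact_mod_cast hn0
  have hpos : 0 < 2 * r ^ 2 := by positivity
  set m := n / (2 * r ^ 2) with hm
  have hml : (n : ℝ) / (4 * r ^ 2) ≤ (m : ℝ) := m_lower r n (by omega) (by omega)
  have hMm : M + 1 ≤ m := by
    rw [hm, Nat.le_div_iff_mul_le hpos]
    calc (M + 1) * (2 * r ^ 2) = 2 * r ^ 2 * (M + 1) := by ring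
      _ ≤ n := hn2
  have hnm : (n : ℝ) ≤ 4 * r ^ 2 * m := by
    rw [div_le_iff₀ (by positivity)] at hml
    linarith
  have hm1 : (1 : ℝ) ≤ m := by
    have : 1 ≤ m := by omega
    exact_mod_cast this
  -- the size of n
  have hbig : κ' * n ≤ (n : ℝ) ^ 2 / (128 * r ^ 4) := by
    rw [le_div_iff₀ (by positivity)]
    have h1 : 128 * (r : ℝ) ^ 4 * κ' ≤ n := hN1.trans (by exact_mod_cast hn1)
    nlinarith
  have hm2 : (n : ℝ) ^ 2 / (16 * r ^ 4) ≤ (m : ℝ) * m := by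
    have h1 : (n : ℝ) / (4 * r ^ 2) * (n / (4 * r ^ 2)) ≤ m * m :=
      mul_le_mul hml hml (by positivity) (Nat.cast_nonneg _)
    refine le_trans (le_of_eq ?_) h1
    field_simp
    ring
  have hlogδ : Real.log (1 + δ) ≤ δ := by
    have := Real.log_le_sub_one_of_pos (by linarith : (0 : ℝ) < 1 + δ)
    linarith
  have hlog2 : (1 / 2 : ℝ) ≤ Real.log 2 := by
    have := Real.log_two_gt_d9
    linarith
  have hlog2' : Real.log 2 ≤ 1 := by
    have := Real.log_two_lt_d9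
    linarith
  -- logarithms
  have hlogrE : Real.log ((r : ℝ) ^ n * (C * (1 + δ) ^ n) ^ n) ≤ κ * n + (n : ℝ) ^ 2 / (128 * r ^ 4) := by
    rw [Real.log_mul (by positivity) (by positivity), Real.log_pow, Real.log_pow,
      Real.log_mul (by positivity) (by positivity), Real.log_pow]
    have h1 : (n : ℝ) * (n * Real.log (1 + δ)) ≤ n * (n * δ) := by
      apply mul_le_mul_of_nonneg_left _ hnR.le
      exact mul_le_mul_of_nonneg_left hlogδ hnR.le
    have h2 : (n : ℝ) * (n * δ) = (n : ℝ) ^ 2 / (128 * r ^ 4) := by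
      rw [hδd]
      ring
    rw [hκ]
    nlinarith
  have hrE0 : 0 < (r : ℝ) ^ n * (C * (1 + δ) ^ n) ^ n := by positivity
  refine ⟨C * (1 + δ) ^ n, C * ((1 + δ) / 2) ^ m, ?_, by positivity, ?_, ?_, ?_, ?_, ?_, ?_, ?_, hn0⟩
  · have h1 : (1 : ℝ) ≤ (1 + δ) ^ n := one_le_pow₀ (by linarith)
    nlinarith
  · intro k hk
    refine (hC k).trans (mul_le_mul_of_nonneg_left ?_ hC0.le)
    exact pow_le_pow_right₀ (by linarith) hk
  · intro k hk _
    have h1 : ((1 + δ) / 2) ^ k ≤ ((1 + δ) / 2) ^ m :=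
      pow_le_pow_of_le_one (by positivity) (by linarith) hk
    calc (e k : ℝ) ≤ C * (1 + δ) ^ k := hC k
      _ = C * ((1 + δ) / 2) ^ k * 2 ^ k := by
          rw [mul_assoc, ← mul_pow]
          congr 2
          ring
      _ ≤ C * ((1 + δ) / 2) ^ m * 2 ^ k := by
          apply mul_le_mul_of_nonneg_right _ (by positivity)
          exact mul_le_mul_of_nonneg_left h1 hC0.le
  · have h1 : Real.log ((r : ℝ) ^ n * ((C * (1 + δ) ^ n) ^ n * (1 / 2) ^ (m * m))) ≤ 0 := by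
      rw [← mul_assoc, Real.log_mul hrE0.ne' (by positivity), Real.log_pow]
      have h2 : Real.log (1 / 2) = - Real.log 2 := by
        rw [one_div, Real.log_inv]
      rw [h2]
      push_cast
      have h3 : (n : ℝ) ^ 2 / (32 * r ^ 4) ≤ (m : ℝ) * m * Real.log 2 := by
        have h4 : (n : ℝ) ^ 2 / (32 * r ^ 4) = (n : ℝ) ^ 2 / (16 * r ^ 4) * (1 / 2) := by
          field_simp
          norm_num
        rw [h4]
        exact mul_le_mul hm2 hlog2 (by norm_num) (by positivity)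
      have h5 : (n : ℝ) ^ 2 / (32 * r ^ 4) = 4 * ((n : ℝ) ^ 2 / (128 * r ^ 4)) := by
        field_simp
        norm_num
      have h6 : κ * n ≤ κ' * n := mul_le_mul_of_nonneg_right
        (by rw [hκ']; linarith [abs_nonneg (Real.log ε)]) hnR.le
      have h7 : 0 ≤ (n : ℝ) ^ 2 / (128 * r ^ 4) := by positivity
      linarith
    have h8 : 0 < (r : ℝ) ^ n * ((C * (1 + δ) ^ n) ^ n * (1 / 2) ^ (m * m)) := by positivity
    rw [Real.log_nonpos_iff h8.le] at h1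
    exact h1
  · have h1 : (n : ℝ) * (r * (C * ((1 + δ) / 2) ^ m)) ≤ 1 := by
      have h2 := (hM m (by omega)).le
      have h3 : ((1 + δ) / 2) ^ m ≤ (3 / 4 : ℝ) ^ m :=
        pow_le_pow_left₀ (by positivity) (by linarith) m
      calc (n : ℝ) * (r * (C * ((1 + δ) / 2) ^ m)) ≤ (4 * r ^ 2 * m) * (r * (C * (3 / 4) ^ m)) := by
            apply mul_le_mul hnm _ (by positivity) (by positivity)
            apply mul_le_mul_of_nonneg_left _ hr0.le
            exact mul_le_mul_of_nonneg_left h3 hC0.le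
        _ = 2 * (r : ℝ) ^ 3 * C * (2 * ((m : ℝ) ^ 1 * (3 / 4) ^ m)) := by ring
        _ ≤ 1 := h2
    exact l_three n _ (by positivity) h1
  · intro f hf
    rw [← mul_assoc]
    exact l_unb hrpos (by omega) f hf _ ε κ κ' hrE0 hε hn0 hn3 hlogrE hκ' hbig
  · by_contra hcon
    have h1 := crs_gap hrpos _ hcon
    rw [sub_self, mul_zero] at h1
    have h5 : (n : ℝ) < (n : ℝ) ^ 2 / (4 * r ^ 2) := by
      rw [lt_div_iff₀ (by positivity)]
      have : (8 * (r : ℝ) ^ 2) ≤ n := by exact_mod_cast hn3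
      nlinarith
    linarith
  · exact l_eighth r m n hr hml

end Pool.Agent.Q6.HP
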